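import Pool.Agent.H49.TF.CritNear

/-!
# EA: the shape operator

`inner_shape`: unfold, `InnerProductSpace.toDual_symm_apply`.
-/

set_option autoImplicit false

open scoped Topology ContDiff RealInnerProductSpace
open Filter Set

namespace TotFoc

variable {E : Type*} [NormedAddCommGroup E] [InnerProductSpace ℝ E] [FiniteDimensional ℝ E]
  {r : ℕ∞ω} {M : Set E}

theorem inner_shape {T : Submodule ℝ E} (g : T → E) (v : E) (Z Z' : T) :
    ⟪(shape T g v Z : E), (Z' : E)⟫ = ⟪v, D2 g 0 Z Z'⟫ := by
  rw [← Submodule.coe_inner]
  unfold shape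
  simp [InnerProductSpace.toDual_symm_apply]

theorem hs_shape {T : Submodule ℝ E} (g : T → E) (v : E) (t : ℝ) (Z Z' : T) :
    hs T g 1 (-(t • v)) Z Z' = ⟪((Z - t • shape T g v Z : T) : E), (Z' : E)⟫ := by
  unfold hs
  rw [Submodule.coe_sub, Submodule.coe_smul, inner_sub_left, real_inner_smul_left, inner_shape,
    inner_neg_left, real_inner_smul_left]
  ring

theorem shape_add {T : Submodule ℝ E} (g : T → E) (v w : E) :
    shape T g (v + w) = shape T g v + shape T g w := by
  ext1 Z
  apply ext_inner_right ℝ
  intro Z'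
  rw [LinearMap.add_apply, inner_add_left, Submodule.coe_inner, Submodule.coe_inner,
    Submodule.coe_inner, inner_shape, inner_shape, inner_shape, inner_add_left]

theorem shape_smul {T : Submodule ℝ E} (g : T → E) (k : ℝ) (v : E) :
    shape T g (k • v) = k • shape T g v := by
  ext1 Z
  apply ext_inner_right ℝ
  intro Z'
  rw [LinearMap.smul_apply, real_inner_smul_left, Submodule.coe_inner, Submodule.coe_inner,
    inner_shape, inner_shape, real_inner_smul_left]

theorem Chart.shape_symm {p : E} {T : Submodule ℝ E} {g : T → E} (h : Chart r M p T g)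
    (h2 : 2 ≤ r) (v : E) : (shape T g v).IsSymmetric := by
  intro Z Z'
  rw [real_inner_comm (shape T g v Z') Z, Submodule.coe_inner, Submodule.coe_inner, inner_shape,
    inner_shape, D2_symm (h.smooth.of_le h2)]

end TotFoc
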