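import Pool.Agent.H49.TF.End.EN

/-!
# EB: a focal point `b` of `p` has the same distance from two points of `F = CrS M 1 p`

Let `x ∈ F` be nearest to `b` (`nearest_mem`). `tan M p = tan M x` by `TH`, `Crit M 1 b x` by `nearest` (chart at `x` from `h.2`).
Suppose that there are no such `x ≠ y` in `F`. Then `‖x - b‖ < ‖y - b‖` for all `y ∈ F`, `y ≠ x` (`x` is nearest, `F ⊆ M`). `F` is finite
(`crit_finite`, `nd_of_PP`), so by continuity there is `ε > 0` such that with `a = x + (1 + ε) • (b - x)`: `‖x - a‖ < ‖y - a‖`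
for all `y ∈ F`, `y ≠ x`. `Crit M 1 a p`: `1 • p - a = (1 • p - b) - ε • (b - x)` and `b - x` is orthogonal to `tan M x = tan M p`. So by
`nearest_mem` some `x' ∈ F` is nearest to `a`; `x' = x` since otherwise `‖x - a‖ < ‖x' - a‖ ≤ ‖x - a‖`. So `x` is nearest to `a` and by
`nearest` `0 ≤ hs T g 1 (1 • x - a) Z Z` for a chart `(T, g)` at `x`. Here `1 • x - a = (1 + ε) • (1 • x - b)` and
`hs T g 1 ((1 + ε) • w) Z Z = (1 + ε) * hs T g 1 w Z Z - ε * ‖Z‖ ^ 2`, so `hs T g 1 (1 • x - b) Z Z > 0` for `Z ≠ 0`: `ND r M 1 b x`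
(`Chart.nd_iff`), and `ND r M 1 b p` by `TF1`. Contradiction.
-/

set_option autoImplicit false

open scoped Topology ContDiff RealInnerProductSpace
open Filter Set

namespace TotFoc

variable {E : Type*} [NormedAddCommGroup E] [InnerProductSpace ℝ E] [FiniteDimensional ℝ E]
  {r : ℕ∞ω} {M : Set E}

theorem EB_ll (hr : ∞ ≤ r) : (3 : ℕ∞ω) ≤ r := by
  refine le_trans ?_ hr
  have h : (((3 : ℕ) : ℕ∞) : ℕ∞ω) ≤ ((⊤ : ℕ∞) : ℕ∞ω) := WithTop.coe_le_coe.mpr le_top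
  exact h

omit [FiniteDimensional ℝ E] in
theorem EB_hs {T : Submodule ℝ E} (g : T → E) (w : E) (ε : ℝ) (Z : T) :
    (1 + ε) * hs T g 1 w Z Z = hs T g 1 ((1 + ε) • w) Z Z + ε * ⟪(Z : E), (Z : E)⟫ := by
  unfold hs
  rw [real_inner_smul_left]
  ring

theorem bisector (hr : ∞ ≤ r) (h : IsSub r M) (h1 : TF1 r M) (hth : TH M) {b p : E}
    (hp : Crit M 1 b p) (hn : ¬ ND r M 1 b p) :
    ∃ x y, PP M p x ∧ PP M p y ∧ x ≠ y ∧ ‖x - b‖ = ‖y - b‖ := by
  by_contra hcon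
  push Not at hcon
  obtain ⟨x, hPx, hm⟩ := nearest_mem hr h h1 hth hp
  have hxM : x ∈ M := hPx.2.1
  obtain ⟨T, g, hch, -⟩ := h.2 x hxM
  have hcx : Crit M 1 b x := (nearest hxM hch (EB_ll hr) hm).1
  have hF : (CrS M 1 p).Finite := crit_finite hr h fun q hq => nd_of_PP h1 ⟨hp.1, hq⟩
  have hev : ∀ᶠ ε in 𝓝 (0 : ℝ), ∀ y ∈ CrS M 1 p, y ≠ x →
      ‖x - (b + ε • (b - x))‖ < ‖y - (b + ε • (b - x))‖ := by
    refine (eventually_all_finite hF).2 fun y hy => ?_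
    by_cases hyx : y = x
    · exact Eventually.of_forall fun ε h' => absurd hyx h'
    · have h2 : ‖x - b‖ < ‖y - b‖ :=
        lt_of_le_of_ne (hm y hy.1) (hcon x y hPx ⟨hp.1, hy⟩ (fun h' => hyx h'.symm))
      have c1 : Continuous fun ε : ℝ => ‖x - (b + ε • (b - x))‖ := by fun_prop
      have c2 : Continuous fun ε : ℝ => ‖y - (b + ε • (b - x))‖ := by fun_prop
      have h3 : ‖x - (b + (0 : ℝ) • (b - x))‖ < ‖y - (b + (0 : ℝ) • (b - x))‖ := by
        simpa using h2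
      exact ((c1.tendsto 0).eventually_lt (c2.tendsto 0) h3).mono fun ε h' _ => h'
  obtain ⟨ε, hε, hε0⟩ := ((hev.filter_mono nhdsWithin_le_nhds).and
    (self_mem_nhdsWithin : Ioi (0 : ℝ) ∈ 𝓝[>] (0 : ℝ))).exists
  have hε0 : 0 < ε := hε0
  have hbx : b - x ∈ (tan M p)ᗮ := by
    rw [(hth p x hPx).2]
    have h2 := Submodule.neg_mem _ hcx.2
    rwa [one_smul, neg_sub] at h2
  have hpa : Crit M 1 (b + ε • (b - x)) p := by
    refine ⟨hp.1, ?_⟩
    have h2 := Submodule.sub_mem _ hp.2 (Submodule.smul_mem _ ε hbx)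
    rwa [sub_sub] at h2
  obtain ⟨x', hPx', hm'⟩ := nearest_mem hr h h1 hth hpa
  have hxx : x' = x := by
    by_contra hne
    exact absurd (hm' x hxM) (not_le.2 (hε x' hPx'.2 hne))
  subst hxx
  have hpos := (nearest hxM hch (EB_ll hr) hm').2
  have hnd : ND r M 1 b x' := by
    refine (hch.nd_iff (EF_one_le hr)).2 fun Z hZ => ?_
    have h2 := hpos Z
    have h3 : (1 : ℝ) • x' - (b + ε • (b - x')) = (1 + ε) • ((1 : ℝ) • x' - b) := by
      module
    rw [h3] at h2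
    have h4 := EB_hs g ((1 : ℝ) • x' - b) ε Z
    rw [hZ Z, mul_zero] at h4
    have h5 : ⟪(Z : E), (Z : E)⟫ ≤ 0 := by
      by_contra h6
      have h7 := mul_pos hε0 (not_le.1 h6)
      linarith
    have h8 : (Z : E) = 0 := by
      rw [real_inner_self_eq_norm_sq] at h5
      have h9 : ‖(Z : E)‖ = 0 := by nlinarith [norm_nonneg (Z : E)]
      exact norm_eq_zero.1 h9
    exact Subtype.ext h8
  exact hn (h1 b x' p hcx hp hnd)

end TotFoc
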