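import Pool.Agent.H49.TF.CritNear

/-!
# ES: a nearest point stays nondegenerate along the segment

`nearest` (chart `(T, g)` at `x` from `h.2`): `Crit M 1 a x` and `0 ≤ hs T g 1 (1 • x - a) Z Z`. With
`a_s = x + s • (a - x)`: `1 • x - a_s = s • (1 • x - a)`, so `Crit M 1 a_s x`, and
`hs T g 1 (s • w) Z Z = (1 - s) * ‖Z‖ ^ 2 + s * hs T g 1 w Z Z ≥ (1 - s) ‖Z‖ ^ 2`, so `ND` by `Chart.nd_iff`
(take `Z' = Z`). (`hs T g 1 w Z Z' = ⟪Z, Z'⟫ + ⟪w, D2 g 0 Z Z'⟫` by definition; `1 ≤ r`, `3 ≤ r` follow from `∞ ≤ r`.)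
-/

set_option autoImplicit false

open scoped Topology ContDiff RealInnerProductSpace
open Filter Set

namespace TotFoc

variable {E : Type*} [NormedAddCommGroup E] [InnerProductSpace ℝ E] [FiniteDimensional ℝ E]
  {r : ℕ∞ω} {M : Set E}

theorem nd_seg (hr : ∞ ≤ r) (h : IsSub r M) {a x : E} (hx : x ∈ M)
    (hm : ∀ y ∈ M, ‖x - a‖ ≤ ‖y - a‖) {s : ℝ} (hs : 0 ≤ s) (hs1 : s < 1) :
    Crit M 1 (x + s • (a - x)) x ∧ ND r M 1 (x + s • (a - x)) x := by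
  have h3 : (3 : ℕ∞ω) ≤ r := by
    refine le_trans ?_ hr
    have : ((3 : ℕ∞) : ℕ∞ω) ≤ ((⊤ : ℕ∞) : ℕ∞ω) := WithTop.coe_le_coe.mpr le_top
    exact this
  have h1 : (1 : ℕ∞ω) ≤ r := le_trans (by norm_num) h3
  obtain ⟨T, g, hc, -⟩ := h.2 x hx
  obtain ⟨hcr, hnn⟩ := nearest hx hc h3 hm
  have e1 : (1 : ℝ) • x - (x + s • (a - x)) = s • ((1 : ℝ) • x - a) := by
    module
  refine ⟨⟨hx, ?_⟩, ?_⟩
  · rw [e1]
    exact Submodule.smul_mem _ _ hcr.2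
  · rw [hc.nd_iff h1]
    intro Z hZ
    have h2 := hZ Z
    have h4 := hnn Z
    rw [e1] at h2
    unfold TotFoc.hs at h2 h4
    rw [inner_smul_left, real_inner_self_eq_norm_sq] at h2
    rw [real_inner_self_eq_norm_sq] at h4
    simp only [RCLike.conj_to_real] at h2
    have h5 : (1 - s) * ‖(Z : E)‖ ^ 2 ≤ 0 := by nlinarith
    have h6 : ‖(Z : E)‖ ^ 2 ≤ 0 := by
      by_contra hc'
      push Not at hc'
      have := mul_pos (sub_pos.2 hs1) hc'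
      linarith
    have h7 : ‖(Z : E)‖ = 0 := by nlinarith [norm_nonneg (Z : E)]
    exact Subtype.ext (norm_eq_zero.1 h7)

end TotFoc
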