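import Pool.Agent.H49.TF.End.EF
import Pool.Agent.H49.TF.End.ES

/-!
# EC: all critical points of a regular `a` are critical for its nearest point `x`

For `s ∈ [0, 1]` let `a_s = x + s • (a - x)` (`a_0 = x`, `a_1 = a`). All critical points of `fn 1 a_s` are
nondegenerate: for `s < 1` because `x` is one (`nd_seg`) and `TF1`; for `s = 1` by `hn`. By `crit_count` and the continuity of
`s ↦ a_s` the function `s ↦ (CrS M 1 a_s).ncard` is locally constant, so it has the same value at `s = 0` and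
`s = 1` (`IsPreconnected.constant`, `isPreconnected_Icc`, `ℕ` is discrete).
`CrS M 1 x ⊆ CrS M 1 a`: if `y` is critical for `x`, then `PP M x y`, so `tan M x = tan M y` by `TH`; `1 • y - a = (1 • y - x) + (1 • x - a)`,
where `1 • y - x ∈ (tan M y)ᗮ` and `1 • x - a ∈ (tan M x)ᗮ = (tan M y)ᗮ` (`x` is critical for `a`: `nd_seg` with `s = 1/2` and scaling, or
`nearest`). Both sets are finite (`crit_finite`) with the same number of elements, so they are equal
(`Set.eq_of_subset_of_ncard_le`), and `p ∈ CrS M 1 a = CrS M 1 x` gives `PP M x p`.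
-/

set_option autoImplicit false

open scoped Topology ContDiff RealInnerProductSpace
open Filter Set

namespace TotFoc

variable {E : Type*} [NormedAddCommGroup E] [InnerProductSpace ℝ E] [FiniteDimensional ℝ E]
  {r : ℕ∞ω} {M : Set E}

theorem EC_seg (hr : ∞ ≤ r) (h : IsSub r M) (h1 : TF1 r M) {a x : E}
    (hn : ∀ q, Crit M 1 a q → ND r M 1 a q) (hx : x ∈ M) (hm : ∀ y ∈ M, ‖x - a‖ ≤ ‖y - a‖)
    {s : ℝ} (hs : s ∈ Icc (0 : ℝ) 1) :
    ∀ q, Crit M 1 (x + s • (a - x)) q → ND r M 1 (x + s • (a - x)) q := by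
  rcases lt_or_eq_of_le hs.2 with h2 | h2
  · intro q hq
    obtain ⟨h3, h4⟩ := nd_seg hr h hx hm hs.1 h2
    exact h1 _ _ _ h3 hq h4
  · have e : x + s • (a - x) = a := by
      rw [h2, one_smul]
      abel
    rw [e]
    exact hn

theorem near_crit (hr : ∞ ≤ r) (h : IsSub r M) (h1 : TF1 r M) (hth : TH M) {a x p : E}
    (hn : ∀ q, Crit M 1 a q → ND r M 1 a q) (hx : x ∈ M) (hm : ∀ y ∈ M, ‖x - a‖ ≤ ‖y - a‖)
    (hp : Crit M 1 a p) : PP M x p := by
  have e0 : x + (0 : ℝ) • (a - x) = x := by rw [zero_smul, add_zero]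
  have e1 : x + (1 : ℝ) • (a - x) = a := by
    rw [one_smul]
    abel
  -- the number of critical points is constant on the segment
  have hcont : ContinuousOn (fun s : ℝ => (CrS M 1 (x + s • (a - x))).ncard) (Icc 0 1) := by
    intro s hs
    have h2 := crit_count hr h (EC_seg hr h h1 hn hx hm hs)
    have h3 : ContinuousAt (fun s : ℝ => x + s • (a - x)) s := by fun_prop
    have h4 : ∀ᶠ s' in 𝓝 s, (CrS M 1 (x + s' • (a - x))).ncard =
        (CrS M 1 (x + s • (a - x))).ncard := h3.eventually h2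
    have h5 : ContinuousAt (fun s : ℝ => (CrS M 1 (x + s • (a - x))).ncard) s :=
      (continuousAt_const (y := (CrS M 1 (x + s • (a - x))).ncard)).congr
        (h4.mono fun _ k => k.symm)
    exact h5.continuousWithinAt
  have hcard : (CrS M 1 x).ncard = (CrS M 1 a).ncard := by
    have h2 := (isPreconnected_Icc (a := (0 : ℝ)) (b := 1)).constant hcont
      (left_mem_Icc.2 zero_le_one) (right_mem_Icc.2 zero_le_one)
    simp only [e0, e1] at h2
    exact h2
  -- `x` is critical for `a`
  have hxn : (1 : ℝ) • x - a ∈ (tan M x)ᗮ := by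
    have h2 := (nd_seg hr h hx hm (s := 1 / 2) (by norm_num) (by norm_num)).1.2
    have e : (1 : ℝ) • x - a = (2 : ℝ) • ((1 : ℝ) • x - (x + (1 / 2 : ℝ) • (a - x))) := by
      module
    rw [e]
    exact Submodule.smul_mem _ _ h2
  have hsub : CrS M 1 x ⊆ CrS M 1 a := by
    intro y hy
    refine ⟨hy.1, ?_⟩
    have ht : tan M x = tan M y := (hth x y ⟨hx, hy⟩).2
    have e : (1 : ℝ) • y - a = ((1 : ℝ) • y - x) + ((1 : ℝ) • x - a) := by module
    rw [e]
    refine Submodule.add_mem _ hy.2 ?_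
    rw [← ht]
    exact hxn
  have heq : CrS M 1 x = CrS M 1 a :=
    Set.eq_of_subset_of_ncard_le hsub hcard.ge (crit_finite hr h hn)
  have hp2 : p ∈ CrS M 1 x := by
    rw [heq]
    exact hp
  exact ⟨hx, hp2⟩

end TotFoc
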