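import Pool.Agent.H49.TF.End.EB
import Pool.Agent.H49.TF.End.EA

/-!
# EE: the nonzero principal curvatures

`b = p + l⁻¹ • v`. `1 • p - b = -(l⁻¹ • v)` is orthogonal to `tan M p = T` (`Chart.tan_eq`): `Crit M 1 b p` (`p ∈ M`: `Chart.mem_self`). Let
`Z ≠ 0` be an eigenvector: `shape T g v Z = l • Z`. By `hs_shape` `hs T g 1 (1 • p - b) Z Z' = ⟪Z - l⁻¹ • (l • Z), Z'⟫ = 0` for all
`Z'`, so `¬ ND r M 1 b p`. `bisector` gives `x`, `y` with `‖x - b‖ = ‖y - b‖`; `x - b = (x - p) - l⁻¹ • v`; square: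
`‖x - p‖ ^ 2 - 2 l⁻¹ ⟪x - p, v⟫ = ‖y - p‖ ^ 2 - 2 l⁻¹ ⟪y - p, v⟫`; multiply by `l`.
-/

set_option autoImplicit false

open scoped Topology ContDiff RealInnerProductSpace
open Filter Set

namespace TotFoc

variable {E : Type*} [NormedAddCommGroup E] [InnerProductSpace ℝ E] [FiniteDimensional ℝ E]
  {r : ℕ∞ω} {M : Set E}

theorem EE_alg {x y p v : E} {l : ℝ} (hl : l ≠ 0)
    (he : ‖x - (p + l⁻¹ • v)‖ = ‖y - (p + l⁻¹ • v)‖) :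
    l * (‖x - p‖ ^ 2 - ‖y - p‖ ^ 2) = 2 * ⟪x - y, v⟫ := by
  have e : ∀ z : E, ‖z - (p + l⁻¹ • v)‖ ^ 2 =
      ‖z - p‖ ^ 2 - 2 * (l⁻¹ * ⟪z - p, v⟫) + ‖l⁻¹ • v‖ ^ 2 := by
    intro z
    rw [← sub_sub, norm_sub_sq_real, real_inner_smul_right]
  have h1 : ‖x - (p + l⁻¹ • v)‖ ^ 2 = ‖y - (p + l⁻¹ • v)‖ ^ 2 := by rw [he]
  rw [e x, e y] at h1
  have h2 : ⟪x - y, v⟫ = ⟪x - p, v⟫ - ⟪y - p, v⟫ := by
    rw [← inner_sub_left]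
    congr 1
    abel
  have h3 : ‖x - p‖ ^ 2 - ‖y - p‖ ^ 2 = 2 * (l⁻¹ * (⟪x - p, v⟫ - ⟪y - p, v⟫)) := by
    linear_combination h1
  rw [h3, h2]
  field_simp

theorem eigen_eq (hr : ∞ ≤ r) (h : IsSub r M) (h1 : TF1 r M) (hth : TH M) {p : E}
    {T : Submodule ℝ E} {g : T → E} (hc : Chart r M p T g) {v : E} (hv : v ∈ (tan M p)ᗮ) {l : ℝ}
    (hl : l ≠ 0) (he : Module.End.HasEigenvalue (shape T g v) l) :
    ∃ x y, PP M p x ∧ PP M p y ∧ x ≠ y ∧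
      l * (‖x - p‖ ^ 2 - ‖y - p‖ ^ 2) = 2 * ⟪x - y, v⟫ := by
  have h1r : (1 : ℕ∞ω) ≤ r := by
    have h0 : ((1 : ℕ∞) : ℕ∞ω) ≤ ((⊤ : ℕ∞) : ℕ∞ω) := WithTop.coe_le_coe.2 le_top
    exact le_trans h0 hr
  have e0 : (1 : ℝ) • p - (p + l⁻¹ • v) = -(l⁻¹ • v) := by module
  have hcr : Crit M 1 (p + l⁻¹ • v) p := by
    refine ⟨hc.mem_self, ?_⟩
    rw [e0]
    exact Submodule.neg_mem _ (Submodule.smul_mem _ _ hv)
  have hnd : ¬ ND r M 1 (p + l⁻¹ • v) p := by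
    intro hN
    obtain ⟨Z, hZ⟩ := he.exists_hasEigenvector
    apply hZ.2
    refine hN T g hc Z fun Z' => ?_
    rw [e0, hs_shape, hZ.apply_eq_smul, smul_smul, inv_mul_cancel₀ hl, one_smul, sub_self]
    simp
  obtain ⟨x, y, hx, hy, hne, hxy⟩ := bisector hr h h1 hth hcr hnd
  exact ⟨x, y, hx, hy, hne, EE_alg hl hxy⟩

end TotFoc
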