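import Pool.Agent.H49.TF.Kappa

/-!
# EF: finitely many critical points, continuation of all of them, constancy of their number

`crit_finite`: `CrS M 1 a` is compact (`isCompact_CrS`) and discrete: for a critical point `p` take `κ` from
`kappa_one`; the last property restricted to `x.1 = a` says that every critical point of `fn 1 a` near `p` is
`κ a = p`. Use `IsCompact.elim_nhds_subcover` (or `IsCompact.finite`).

`crit_local`: for every critical point `p` choose `κ p` from `kappa_one` (`κ p` arbitrary for the other `p`).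
Let `F = CrS M 1 a` (finite). For `a'` near `a`:
* `κ p a'` is critical for `a'`, all `p ∈ F` (`Set.Finite.eventually_all` / `eventually_all_finite`);
* injectivity on `F`: for `p ≠ p'` in `F` the continuous functions `κ p`, `κ p'` have different values `p ≠ p'` at `a`,
  so they differ near `a` (finitely many pairs);
* every critical point of `fn 1 a'` is some `κ p a'`: for every `y ∈ M`, for all `z = (z.1, z.2)` near `(a, y)`:
  `Crit M 1 z.1 z.2 → ∃ p ∈ F, z.2 = κ p z.1`. If `y ∈ F` by the last property of `kappa_one`; if `y ∉ F` then `(a, y)`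
  is not in the closed set of critical pairs (`isClosed_crit` with `c = 1`), so the hypothesis is false near
  `(a, y)`. By compactness of `M` (`IsCompact.eventually_forall_of_forall_eventually`) for `a'` near `a` this holds for all
  `y ∈ M` simultaneously (critical points are in `M`).
`crit_count`: `Set.InjOn.ncard_image` (`Set.ncard_image_of_injOn`).
-/

set_option autoImplicit false

open scoped Topology ContDiff RealInnerProductSpace
open Filter Set

namespace TotFoc

variable {E : Type*} [NormedAddCommGroup E] [InnerProductSpace ℝ E] [FiniteDimensional ℝ E]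
  {r : ℕ∞ω} {M : Set E}

theorem EF_one_le (hr : ∞ ≤ r) : (1 : ℕ∞ω) ≤ r := by
  refine le_trans ?_ hr
  have : ((1 : ℕ∞) : ℕ∞ω) ≤ ((⊤ : ℕ∞) : ℕ∞ω) := WithTop.coe_le_coe.mpr le_top
  exact this

theorem crit_finite (hr : ∞ ≤ r) (h : IsSub r M) {a : E}
    (hn : ∀ p, Crit M 1 a p → ND r M 1 a p) : (CrS M 1 a).Finite := by
  have hK := isCompact_CrS h (EF_one_le hr) 1 a
  obtain ⟨t, -, ht⟩ := hK.elim_nhds_subcover (fun p => {q | Crit M 1 a q → q = p}) (by
    intro p hp
    obtain ⟨κ, -, k2, -, k4⟩ := kappa_one hr h.2 hp (hn p hp)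
    have h1 : Tendsto (fun q : E => (a, q)) (𝓝 p) (𝓝 (a, p)) :=
      (Continuous.prodMk_right a).tendsto p
    filter_upwards [h1.eventually k4] with q hq hcq
    rw [← k2]
    exact hq hcq)
  refine t.finite_toSet.subset fun q hq => ?_
  obtain ⟨x, hx, hqx⟩ := Set.mem_iUnion₂.1 (ht hq)
  rw [show q = x from hqx hq]
  exact hx

theorem crit_local (hr : ∞ ≤ r) (h : IsSub r M) {a : E}
    (hn : ∀ p, Crit M 1 a p → ND r M 1 a p) :
    ∃ κ : E → E → E, (∀ p, Crit M 1 a p → ContDiffAt ℝ r (κ p) a ∧ κ p a = p) ∧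
      ∀ᶠ a' in 𝓝 a, CrS M 1 a' = (fun p => κ p a') '' CrS M 1 a ∧
        InjOn (fun p => κ p a') (CrS M 1 a) := by
  have hF := crit_finite hr h hn
  have hex : ∀ p, ∃ κ : E → E, Crit M 1 a p → (ContDiffAt ℝ r κ a ∧ κ a = p ∧
      (∀ᶠ a' in 𝓝 a, Crit M 1 a' (κ a') ∧ ND r M 1 a' (κ a')) ∧
      ∀ᶠ x : E × E in 𝓝 (a, p), Crit M 1 x.1 x.2 → x.2 = κ x.1) := by
    intro p
    by_cases hp : Crit M 1 a p
    · obtain ⟨κ, hκ⟩ := kappa_one hr h.2 hp (hn p hp)
      exact ⟨κ, fun _ => hκ⟩
    · exact ⟨id, fun h' => absurd h' hp⟩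
  choose κ hκ using hex
  refine ⟨κ, fun p hp => ⟨(hκ p hp).1, (hκ p hp).2.1⟩, ?_⟩
  have e1 : ∀ᶠ a' in 𝓝 a, ∀ p ∈ CrS M 1 a, Crit M 1 a' (κ p a') :=
    (eventually_all_finite hF).2 fun p hp => (hκ p hp).2.2.1.mono fun a' h' => h'.1
  have e2 : ∀ᶠ a' in 𝓝 a, ∀ p ∈ CrS M 1 a, ∀ p' ∈ CrS M 1 a, p ≠ p' → κ p a' ≠ κ p' a' := by
    refine (eventually_all_finite hF).2 fun p hp => (eventually_all_finite hF).2 fun p' hp' => ?_
    by_cases hne : p = p'
    · exact Eventually.of_forall fun a' h' => absurd hne h'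
    · have hne' : κ p a ≠ κ p' a := by
        rw [(hκ p hp).2.1, (hκ p' hp').2.1]
        exact hne
      exact (((hκ p hp).1.continuousAt.ne_iff_eventually_ne (hκ p' hp').1.continuousAt).1
        hne').mono fun a' h' _ => h'
  have e3 : ∀ᶠ a' in 𝓝 a, ∀ y ∈ M, Crit M 1 a' y → ∃ p ∈ CrS M 1 a, y = κ p a' := by
    refine h.1.eventually_forall_of_forall_eventually
      (P := fun a' y => Crit M 1 a' y → ∃ p ∈ CrS M 1 a, y = κ p a') fun y hy => ?_
    by_cases hc : Crit M 1 a y
    · filter_upwards [(hκ y hc).2.2.2] with z hz hcz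
      exact ⟨y, hc, hz hcz⟩
    · have h2 : Continuous (fun x : E × E => ((1, x.1, x.2) : ℝ × E × E)) := by fun_prop
      have h3 := (isClosed_crit h (EF_one_le hr)).preimage h2
      have h4 : (a, y) ∈ ((fun x : E × E => ((1, x.1, x.2) : ℝ × E × E)) ⁻¹'
          {x : ℝ × E × E | Crit M x.1 x.2.1 x.2.2})ᶜ := hc
      filter_upwards [h3.isOpen_compl.mem_nhds h4] with z hz hcz
      exact absurd hcz hz
  filter_upwards [e1, e2, e3] with a' h1 h2 h3
  refine ⟨?_, ?_⟩
  · ext y
    constructor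
    · intro hy
      obtain ⟨p, hp, rfl⟩ := h3 y hy.1 hy
      exact ⟨p, hp, rfl⟩
    · rintro ⟨p, hp, rfl⟩
      exact h1 p hp
  · intro p hp p' hp' heq
    by_contra hne
    exact h2 p hp p' hp' hne heq

theorem crit_count (hr : ∞ ≤ r) (h : IsSub r M) {a : E}
    (hn : ∀ p, Crit M 1 a p → ND r M 1 a p) :
    ∀ᶠ a' in 𝓝 a, (CrS M 1 a').ncard = (CrS M 1 a).ncard := by
  obtain ⟨κ, -, hκ⟩ := crit_local hr h hn
  filter_upwards [hκ] with a' ha'
  rw [ha'.1, ha'.2.ncard_image]

end TotFoc
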