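import Pool.Agent.H49.TF.End.EA

/-!
# EH: the shape operators near `p` as a continuous family of operators on one space

Notation: `φ = gr p T g`, `B y = T.subtypeL + fderiv ℝ g y : T →L E` (the derivative of `φ`), `Pr = T.orthogonalProjectionOnto`.
For `y` near `0`: `G y = (B y)† ∘ (B y) : T →L T` (`ContinuousLinearMap.adjoint`; `⟪G y Z, Z'⟫ = ⟪B y Z, B y Z'⟫`) is injective, since
`⟪G y Z, Z⟫ = ‖Z‖ ^ 2 + ‖Dg(y) Z‖ ^ 2` (`fderiv_mem_orth`, `h.perp`), hence a unit of the ring `T →L T` (finite dimension); `R y v : T →L T` is given by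
`⟪R y v Z, Z'⟫ = ⟪v, D2 g y Z Z'⟫` (define it by `InnerProductSpace.toDual`, continuously and linearly in `D2 g y` and `v`: e.g.
`R y v = (toDual.symm) ∘L (compL (innerSL v) ∘L D2 g y)`, or as a continuous bilinear expression). Put `S s v = Ring.inverse (G y) ∘ R y v`, `y = Pr (s - p)`.
Continuity: `y` depends continuously on `s`; `fderiv ℝ g`, `D2 g` are continuous near `0` (`g` is `C^3` near `0`: `Chart.near_cont`), `Ring.inverse` is continuous
at units (`NormedRing.inverse_continuousAt`).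
Let `s ∈ M` be near `p`: `s = φ y` with `y = Pr (s - p)` near `0` (`h.surj`; or transfer by `Chart.eventually_iff` and `proj_gr`). Let `(T', g')` be a chart at `s` and
`v ∈ T'ᗮ`. By `near_chart` `B y` is a bijection of `T` onto `T'`. By `Chart.hess_near` with `c = 0`, `a = -v` (`Crit M 0 (-v) s` since
`0 • s - (-v) = v ∈ (tan M s)ᗮ`, `Chart.tan_eq`) and `D2_fn_gr` (with `c = 0`): `⟪v, D2 g y Z Z'⟫ = ⟪v, D2 g' 0 (B Z) (B Z')⟫ = ⟪A' (B Z), B Z'⟫`, `A' = shape T' g' v`
(`inner_shape`). Hence `⟪B (S Z), B Z'⟫ = ⟪G (S Z), Z'⟫ = ⟪R Z, Z'⟫ = ⟪A' (B Z), B Z'⟫` for all `Z'`, so `B (S Z) = A' (B Z)` (both are in `T' = range B`):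
`S = B⁻¹ A' B`, and conjugate operators have the same characteristic polynomial (`LinearEquiv.charpoly_conj` or similar).
-/

set_option autoImplicit false

open scoped Topology ContDiff RealInnerProductSpace
open Filter Set

namespace TotFoc

variable {E : Type*} [NormedAddCommGroup E] [InnerProductSpace ℝ E] [FiniteDimensional ℝ E]
  {r : ℕ∞ω} {M : Set E}

theorem EH_three (hr : ∞ ≤ r) : (3 : ℕ∞ω) ≤ r := by
  have h : ((3 : ℕ∞) : ℕ∞ω) ≤ ((⊤ : ℕ∞) : ℕ∞ω) := WithTop.coe_le_coe.2 le_top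
  exact le_trans h hr

/-- Riesz representation as a continuous linear map -/
noncomputable def EH_rz (T : Submodule ℝ E) : (T →L[ℝ] ℝ) →L[ℝ] T :=
  LinearMap.toContinuousLinearMap
    { toFun := fun f => (InnerProductSpace.toDual ℝ T).symm f
      map_add' := fun f f' => map_add _ f f'
      map_smul' := fun k f => by simp }

theorem EH_rz_inner (T : Submodule ℝ E) (f : T →L[ℝ] ℝ) (Z : T) : ⟪EH_rz T f, Z⟫ = f Z := by
  simp [EH_rz, InnerProductSpace.toDual_symm_apply]

/-- the derivative of the graph map -/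
noncomputable def EH_B (T : Submodule ℝ E) (g : T → E) (y : T) : T →L[ℝ] E :=
  T.subtypeL + fderiv ℝ g y

theorem EH_B_apply (T : Submodule ℝ E) (g : T → E) (y Z : T) :
    EH_B T g y Z = (Z : E) + fderiv ℝ g y Z := rfl

/-- the first fundamental form -/
noncomputable def EH_G (T : Submodule ℝ E) (g : T → E) (y : T) : T →L[ℝ] T :=
  (EH_rz T).comp (((ContinuousLinearMap.compL ℝ T E ℝ).flip (EH_B T g y)).comp
    ((innerSL ℝ : E →L[ℝ] E →L[ℝ] ℝ).comp (EH_B T g y)))

theorem EH_G_inner (T : Submodule ℝ E) (g : T → E) (y Z Z' : T) :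
    ⟪EH_G T g y Z, Z'⟫ = ⟪EH_B T g y Z, EH_B T g y Z'⟫ := by
  unfold EH_G
  rw [ContinuousLinearMap.comp_apply, EH_rz_inner]
  rfl

/-- the second fundamental form -/
noncomputable def EH_R (T : Submodule ℝ E) (g : T → E) (y : T) (v : E) : T →L[ℝ] T :=
  (EH_rz T).comp ((ContinuousLinearMap.compL ℝ T E ℝ (innerSL ℝ v)).comp (D2 g y))

theorem EH_R_inner (T : Submodule ℝ E) (g : T → E) (y : T) (v : E) (Z Z' : T) :
    ⟪EH_R T g y v Z, Z'⟫ = ⟪v, D2 g y Z Z'⟫ := by
  unfold EH_R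
  rw [ContinuousLinearMap.comp_apply, EH_rz_inner]
  rfl

theorem EH_comp_cont {X V W F : Type*} [TopologicalSpace X] [NormedAddCommGroup V]
    [NormedSpace ℝ V] [NormedAddCommGroup W] [NormedSpace ℝ W] [NormedAddCommGroup F]
    [NormedSpace ℝ F] {A : X → (W →L[ℝ] F)} {B : X → (V →L[ℝ] W)} {x : X}
    (hA : ContinuousAt A x) (hB : ContinuousAt B x) :
    ContinuousAt (fun x => (A x).comp (B x)) x := hA.clm_comp hB

theorem EH_flip_cont {X V F : Type*} [TopologicalSpace X] [NormedAddCommGroup V]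
    [NormedSpace ℝ V] [NormedAddCommGroup F]
    [NormedSpace ℝ F] {B : X → (V →L[ℝ] F)} {x : X}
    (hB : ContinuousAt B x) :
    ContinuousAt (fun x => (ContinuousLinearMap.compL ℝ V F ℝ).flip (B x)) x :=
  ((ContinuousLinearMap.continuous (ContinuousLinearMap.compL ℝ V F ℝ).flip).continuousAt).comp hB

theorem EH_compL_cont {X V F : Type*} [TopologicalSpace X] [NormedAddCommGroup V]
    [NormedSpace ℝ V] [NormedAddCommGroup F]
    [NormedSpace ℝ F] {A : X → (F →L[ℝ] ℝ)} {x : X}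
    (hB : ContinuousAt A x) :
    ContinuousAt (fun x => (ContinuousLinearMap.compL ℝ V F ℝ) (A x)) x :=
  ((ContinuousLinearMap.continuous (ContinuousLinearMap.compL ℝ V F ℝ)).continuousAt).comp hB

theorem EH_G_cont {T : Submodule ℝ E} {g : T → E} {y : T} (hy : ContDiffAt ℝ 3 g y) :
    ContinuousAt (EH_G T g) y := by
  have h1 : ContinuousAt (EH_B T g) y :=
    continuousAt_const.add (contDiffAt_D1 (m := 1) hy (by norm_num)).continuousAt
  have h3 : ContinuousAt (fun y => (innerSL ℝ : E →L[ℝ] E →L[ℝ] ℝ).comp (EH_B T g y)) y :=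
    EH_comp_cont continuousAt_const h1
  have h4 := EH_comp_cont (EH_flip_cont h1) h3
  have h5 := EH_comp_cont (A := fun _ => EH_rz T) continuousAt_const h4
  exact h5

theorem EH_R_cont {T : Submodule ℝ E} {g : T → E} {y : T} (hy : ContDiffAt ℝ 3 g y) (v : E) :
    ContinuousAt (fun x : T × E => EH_R T g x.1 x.2) (y, v) := by
  have h1 : ContinuousAt (D2 g) y := (contDiffAt_D2 (m := 1) hy (by norm_num)).continuousAt
  have h2 : ContinuousAt (fun x : T × E => D2 g x.1) (y, v) :=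
    ContinuousAt.comp (f := fun x : T × E => x.1) (g := D2 g) h1 continuousAt_fst
  have h3 : ContinuousAt (fun x : T × E => (innerSL ℝ : E →L[ℝ] E →L[ℝ] ℝ) x.2) (y, v) :=
    ((ContinuousLinearMap.continuous (innerSL ℝ)).comp continuous_snd).continuousAt
  have h4 := EH_comp_cont (EH_compL_cont (V := T) h3) h2
  have h5 := EH_comp_cont (A := fun _ => EH_rz T) continuousAt_const h4
  exact h5

theorem EH_G_zero {p : E} {T : Submodule ℝ E} {g : T → E} (hc : Chart r M p T g) :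
    EH_G T g 0 = 1 := by
  ext1 Z
  apply ext_inner_right ℝ
  intro Z'
  rw [EH_G_inner, EH_B_apply, EH_B_apply, hc.der]
  simp

theorem EH_unit {p : E} {T : Submodule ℝ E} {g : T → E} (hr : ∞ ≤ r) (hc : Chart r M p T g) :
    ∀ᶠ y in 𝓝 (0 : T), IsUnit (EH_G T g y) := by
  have h3 : (3 : ℕ∞ω) ≤ r := EH_three hr
  have h1 : ContinuousAt (EH_G T g) 0 := EH_G_cont (hc.smooth.of_le h3)
  have h2 : {x : T →L[ℝ] T | IsUnit x} ∈ 𝓝 (EH_G T g 0) := by
    rw [EH_G_zero hc]
    exact Units.nhds (R := T →L[ℝ] T) 1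
  exact h1.eventually h2

/-- the shape operators, read on the fixed space `T` -/
noncomputable def EH_S (p : E) (T : Submodule ℝ E) (g : T → E) (s v : E) : T →L[ℝ] T :=
  Ring.inverse (EH_G T g (T.orthogonalProjectionOnto (s - p))) *
    EH_R T g (T.orthogonalProjectionOnto (s - p)) v

theorem EH_S_cont {p : E} {T : Submodule ℝ E} {g : T → E} {s : E} (v : E)
    (h1 : IsUnit (EH_G T g (T.orthogonalProjectionOnto (s - p))))
    (h2 : ContDiffAt ℝ 3 g (T.orthogonalProjectionOnto (s - p))) :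
    ContinuousAt (fun x : E × E => EH_S p T g x.1 x.2) (s, v) := by
  obtain ⟨u, hu⟩ := h1
  have hP : ContinuousAt (fun x : E × E => T.orthogonalProjectionOnto (x.1 - p)) (s, v) := by
    fun_prop
  have hG : ContinuousAt (fun x : E × E => EH_G T g (T.orthogonalProjectionOnto (x.1 - p)))
      (s, v) :=
    ContinuousAt.comp (f := fun x : E × E => T.orthogonalProjectionOnto (x.1 - p))
      (g := EH_G T g) (EH_G_cont h2) hP
  have hI : ContinuousAt (Ring.inverse : (T →L[ℝ] T) → (T →L[ℝ] T))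
      (EH_G T g (T.orthogonalProjectionOnto (s - p))) := by
    rw [← hu]
    exact NormedRing.inverse_continuousAt (R := T →L[ℝ] T) u
  have hGI : ContinuousAt (fun x : E × E =>
      Ring.inverse (EH_G T g (T.orthogonalProjectionOnto (x.1 - p)))) (s, v) :=
    ContinuousAt.comp (f := fun x : E × E => EH_G T g (T.orthogonalProjectionOnto (x.1 - p)))
      (g := (Ring.inverse : (T →L[ℝ] T) → (T →L[ℝ] T))) hI hG
  have hR : ContinuousAt (fun x : E × E =>
      EH_R T g (T.orthogonalProjectionOnto (x.1 - p)) x.2) (s, v) :=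
    ContinuousAt.comp (f := fun x : E × E => (T.orthogonalProjectionOnto (x.1 - p), x.2))
      (g := fun x : T × E => EH_R T g x.1 x.2) (EH_R_cont h2 v)
      (hP.prodMk continuousAt_snd)
  exact hGI.clm_comp hR

/-- the conjugation -/
theorem EH_conj {p : E} {T : Submodule ℝ E} {g : T → E} {y : T} (hu : IsUnit (EH_G T g y))
    {T' : Submodule ℝ E} {g' : T' → E} {v : E}
    (hA : ∀ Z : T, (Z : E) + fderiv ℝ g y Z ∈ T')
    (hB : ∀ v ∈ T', ∃ Z : T, v = Z + fderiv ℝ g y Z)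
    (hC : ∀ Z : T, (Z : E) + fderiv ℝ g y Z = 0 → Z = 0)
    (hD : ∀ (Z Z' : T) (W W' : T'), (W : E) = Z + fderiv ℝ g y Z →
      (W' : E) = Z' + fderiv ℝ g y Z' → ⟪v, D2 g y Z Z'⟫ = ⟪v, D2 g' 0 W W'⟫) :
    (shape T' g' v).charpoly =
      ((Ring.inverse (EH_G T g y) * EH_R T g y v : T →L[ℝ] T) : T →ₗ[ℝ] T).charpoly := by
  set S : T →L[ℝ] T := Ring.inverse (EH_G T g y) * EH_R T g y v with hS
  have hGS : EH_G T g y * S = EH_R T g y v := by
    rw [hS, ← mul_assoc, Ring.mul_inverse_cancel _ hu, one_mul]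
  let b : T →ₗ[ℝ] T' := LinearMap.codRestrict T' (EH_B T g y : T →ₗ[ℝ] E) hA
  have hb : ∀ Z, ((b Z : T') : E) = Z + fderiv ℝ g y Z := fun Z => rfl
  have hbij : Function.Bijective b := by
    constructor
    · rw [← LinearMap.ker_eq_bot, LinearMap.ker_eq_bot']
      intro Z hZ
      apply hC
      rw [← hb, hZ]
      rfl
    · intro W
      obtain ⟨Z, hZ⟩ := hB W W.2
      exact ⟨Z, Subtype.ext (by rw [hb, hZ])⟩
  let e : T ≃ₗ[ℝ] T' := LinearEquiv.ofBijective b hbij
  have he : ∀ Z, e Z = b Z := fun Z => rfl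
  have key : ∀ Z : T, shape T' g' v (e Z) = e (S Z) := by
    intro Z
    apply ext_inner_right ℝ
    intro W
    obtain ⟨Z', hZ'⟩ := e.surjective W
    rw [← hZ']
    have h1 : ⟪shape T' g' v (e Z), e Z'⟫ = ⟪v, D2 g' 0 (e Z) (e Z')⟫ := inner_shape g' v _ _
    have h2 : ⟪v, D2 g y Z Z'⟫ = ⟪v, D2 g' 0 (e Z) (e Z')⟫ :=
      hD Z Z' _ _ (by rw [he, hb]) (by rw [he, hb])
    have h3 : ⟪e (S Z), e Z'⟫ = ⟪EH_G T g y (S Z), Z'⟫ := by
      rw [EH_G_inner]
      rfl
    have h4 : EH_G T g y (S Z) = EH_R T g y v Z := by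
      rw [← hGS]
      rfl
    rw [h1, ← h2, h3, h4, EH_R_inner]
  have h5 : shape T' g' v = e.conj (S : T →ₗ[ℝ] T) := by
    ext1 W
    obtain ⟨Z, hZ⟩ := e.surjective W
    rw [← hZ, key, LinearEquiv.conj_apply_apply, LinearEquiv.symm_apply_apply]
    rfl
  rw [h5, LinearEquiv.charpoly_conj]

theorem shape_near (hr : ∞ ≤ r) (hX : Loc r M) {p : E} {T : Submodule ℝ E} {g : T → E}
    (hc : Chart r M p T g) :
    ∃ S : E → E → (T →L[ℝ] T),
      (∀ᶠ s in 𝓝 p, ∀ v, ContinuousAt (fun x : E × E => S x.1 x.2) (s, v)) ∧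
      ∀ᶠ s in 𝓝 p, s ∈ M → ∀ (T' : Submodule ℝ E) (g' : T' → E), Chart r M s T' g' →
        ∀ v ∈ T'ᗮ, (shape T' g' v).charpoly = (S s v : T →ₗ[ℝ] T).charpoly := by
  have h3 : (3 : ℕ∞ω) ≤ r := EH_three hr
  have h2 : (2 : ℕ∞ω) ≤ r := le_trans (by norm_num) h3
  have h1 : (1 : ℕ∞ω) ≤ r := le_trans (by norm_num) h3
  refine ⟨EH_S p T g, ?_, ?_⟩
  · have ht : Tendsto (fun s : E => T.orthogonalProjectionOnto (s - p)) (𝓝 p) (𝓝 0) := by
      have h4 : ContinuousAt (fun s : E => T.orthogonalProjectionOnto (s - p)) p := by fun_prop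
      have h5 := h4.tendsto
      rwa [sub_self, map_zero] at h5
    filter_upwards [ht.eventually (EH_unit hr hc),
      ht.eventually (hc.near_cont (n := 3) (by exact_mod_cast h3))] with s hs1 hs2 v
    exact EH_S_cont v hs1 (by exact_mod_cast hs2.1)
  · rw [hc.eventually_iff]
    filter_upwards [EH_unit hr hc, hc.near_cont (n := 2) (by exact_mod_cast h2),
      hc.near_chart h1, hc.hess_near h2] with y hy1 hy2 hy3 hy4 T' g' hc' v hv
    obtain ⟨hA, hB, hC, -⟩ := hy3 T' g' hc'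
    have hcr : Crit M 0 (-v) (gr p T g y) := by
      refine ⟨hc'.mem_self, ?_⟩
      rw [hc'.tan_eq h1, zero_smul, zero_sub, neg_neg]
      exact hv
    unfold EH_S
    rw [proj_gr hc.perp]
    refine EH_conj (p := p) hy1 hA hB hC ?_
    intro Z Z' W W' hW hW'
    have h5 := hy4 T' g' hc' 0 (-v) hcr Z Z' W W' hW hW'
    rw [D2_fn_gr 0 (-v) (by exact_mod_cast hy2.1)] at h5
    unfold hs at h5
    simpa using h5

end TotFoc
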