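import Pool.Agent.H49.TF.LocConst

/-!
# EI: inner products of parallel normal fields are locally constant

`loc_const` (chart at `p` from `h.2`) for `G s = ⟪ξ s, η s⟫`: at `x ∈ M` near `p` (`x ∈ U`) the derivative within `M` is
`v ↦ ⟪ξ x, Lη v⟫ + ⟪Lξ v, η x⟫` (`HasFDerivWithinAt.inner`), which vanishes for `v ∈ tan M x` because `Lξ v`, `Lη v` are tangent and `ξ x`, `η x`
are normal.
-/

set_option autoImplicit false

open scoped Topology ContDiff RealInnerProductSpace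
open Filter Set

namespace TotFoc

variable {E : Type*} [NormedAddCommGroup E] [InnerProductSpace ℝ E] [FiniteDimensional ℝ E]
  {r : ℕ∞ω} {M : Set E}

theorem inner_const (hr : ∞ ≤ r) (h : IsSub r M) {U : Set E} (hU : IsOpen U) {ξ η : E → E}
    (hξ : IsParallel M (M ∩ U) ξ) (hη : IsParallel M (M ∩ U) η) {p : E} (hp : p ∈ M ∩ U) :
    ∀ᶠ s in 𝓝 p, s ∈ M → ⟪ξ s, η s⟫ = ⟪ξ p, η p⟫ := by
  have h1r : (1 : ℕ∞ω) ≤ r := by
    have h0 : ((1 : ℕ∞) : ℕ∞ω) ≤ ((⊤ : ℕ∞) : ℕ∞ω) := WithTop.coe_le_coe.2 le_top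
    exact le_trans h0 hr
  obtain ⟨T, g, hc, -⟩ := h.2 p hp.1
  refine loc_const hc h1r (G := fun s => ⟪ξ s, η s⟫) ?_
  filter_upwards [hU.mem_nhds hp.2] with x hxU hxM
  obtain ⟨a1, L, a2, a3⟩ := hξ x ⟨hxM, hxU⟩
  obtain ⟨b1, L', b2, b3⟩ := hη x ⟨hxM, hxU⟩
  refine ⟨_, a2.inner ℝ b2, fun v hv => ?_⟩
  have e1 : ⟪ξ x, L' v⟫ = 0 := Submodule.inner_left_of_mem_orthogonal (b3 v hv) a1
  have e2 : ⟪L v, η x⟫ = 0 := Submodule.inner_right_of_mem_orthogonal (a3 v hv) b1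
  simp [e1, e2]

end TotFoc
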