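import Pool.Agent.H49.TF.Base

/-!
# EK: a continuous family of operators whose eigenvalues are in a finite set

For a fixed real `z` the function `y ↦ (S y).charpoly.eval z = det (z - S y)` (`LinearMap.eval_charpoly`; `ContinuousLinearMap.det` is continuous, or use a
matrix) is continuous on `K`, and its values are in the finite set of the numbers `∏ i, (z - f i)`, `f : Fin n → Λ` (`Set.Finite.pi`-type argument). A
continuous function on a preconnected set with finitely many values is constant (`IsPreconnected.image`, a finite preconnected set of real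
numbers has at most one point). `Polynomial.funext`.
-/

set_option autoImplicit false

open scoped Topology ContDiff RealInnerProductSpace
open Filter Set

namespace TotFoc

variable {E : Type*} [NormedAddCommGroup E] [InnerProductSpace ℝ E] [FiniteDimensional ℝ E]
  {r : ℕ∞ω} {M : Set E}

/-- the values of the characteristic polynomial are continuous -/
theorem EK_cont {T : Submodule ℝ E} (z : ℝ) :
    Continuous fun A : T →L[ℝ] T => (A : T →ₗ[ℝ] T).charpoly.eval z := by
  have h : (fun A : T →L[ℝ] T => (A : T →ₗ[ℝ] T).charpoly.eval z) =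
      fun A : T →L[ℝ] T => (z • ContinuousLinearMap.id ℝ T - A).det := by
    funext A
    rw [LinearMap.eval_charpoly]
    rfl
  rw [h]
  exact ContinuousLinearMap.continuous_det.comp (continuous_const.sub continuous_id)

theorem charpoly_const {Y : Type*} [TopologicalSpace Y] {K : Set Y} (hK : IsPreconnected K)
    {T : Submodule ℝ E} {S : Y → (T →L[ℝ] T)} (hS : ContinuousOn S K) {Λ : Set ℝ}
    (hΛ : Λ.Finite) {n : ℕ} (hf : ∀ y ∈ K, ∃ f : Fin n → ℝ, (∀ i, f i ∈ Λ) ∧
      (S y : T →ₗ[ℝ] T).charpoly = ∏ i, (Polynomial.X - Polynomial.C (f i))) {y y' : Y}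
    (hy : y ∈ K) (hy' : y' ∈ K) :
    (S y : T →ₗ[ℝ] T).charpoly = (S y' : T →ₗ[ℝ] T).charpoly := by
  refine Polynomial.funext fun z => ?_
  have hc : ContinuousOn (fun y => (S y : T →ₗ[ℝ] T).charpoly.eval z) K :=
    (EK_cont z).comp_continuousOn hS
  set V : Set ℝ := (fun f : Fin n → ℝ => ∏ i, (z - f i)) '' (Set.pi univ fun _ => Λ) with hV
  have hfin : V.Finite := (Set.Finite.pi' fun _ => hΛ).image _ |>.subset (by
    rw [hV]
    refine image_mono ?_
    intro f hf i
    exact hf i (mem_univ i))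
  have hm : MapsTo (fun y => (S y : T →ₗ[ℝ] T).charpoly.eval z) K V := by
    intro x hx
    obtain ⟨f, h1, h2⟩ := hf x hx
    refine ⟨f, fun i _ => h1 i, ?_⟩
    simp only [h2, Polynomial.eval_prod, Polynomial.eval_sub, Polynomial.eval_X,
      Polynomial.eval_C]
  obtain ⟨c, -, hc'⟩ := hK.eqOn_const_of_mapsTo hfin.isDiscrete hc hm ⟨_, hm hy⟩
  exact (hc' hy).trans (hc' hy').symm

/-- passing to the limit -/
theorem charpoly_lim {T : Submodule ℝ E} {A B : ℝ → (T →L[ℝ] T)} (hA : ContinuousAt A 0)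
    (hB : ContinuousAt B 0) (h : ∀ᶠ t in 𝓝[≠] (0 : ℝ),
      (A t : T →ₗ[ℝ] T).charpoly = (B t : T →ₗ[ℝ] T).charpoly) :
    (A 0 : T →ₗ[ℝ] T).charpoly = (B 0 : T →ₗ[ℝ] T).charpoly := by
  refine Polynomial.funext fun z => ?_
  have h1 : Tendsto (fun t => (A t : T →ₗ[ℝ] T).charpoly.eval z) (𝓝[≠] 0)
      (𝓝 ((A 0 : T →ₗ[ℝ] T).charpoly.eval z)) :=
    (((EK_cont z).tendsto (A 0)).comp hA).mono_left nhdsWithin_le_nhds
  have h2 : Tendsto (fun t => (B t : T →ₗ[ℝ] T).charpoly.eval z) (𝓝[≠] 0)
      (𝓝 ((B 0 : T →ₗ[ℝ] T).charpoly.eval z)) :=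
    (((EK_cont z).tendsto (B 0)).comp hB).mono_left nhdsWithin_le_nhds
  refine tendsto_nhds_unique h1 (h2.congr' ?_)
  filter_upwards [h] with t ht
  rw [ht]

end TotFoc
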