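import Pool.Agent.H49.TF.End.EN

/-!
# EZ: normal vectors orthogonal to all `q - p` are constant normal vectors

For a real number `t` let `a = p + t • u`: `1 • p - a = -(t • u)`, so `Crit M 1 a p`. By `nearest_mem` some `x` with `PP M p x` is nearest to
`a`. As `⟪u, x - p⟫ = 0`: `‖x - a‖ ^ 2 = ‖x - p‖ ^ 2 + t ^ 2 ‖u‖ ^ 2 ≥ t ^ 2 ‖u‖ ^ 2`. For `y ∈ M`: `‖y - a‖ ^ 2 = ‖y - p‖ ^ 2 - 2 t ⟪u, y - p⟫ + t ^ 2 ‖u‖ ^ 2
≥ ‖x - a‖ ^ 2`, so `2 t ⟪u, y - p⟫ ≤ ‖y - p‖ ^ 2` for all real `t`, and so `⟪u, y - p⟫ = 0` for all `y ∈ M`. Hence for every curve `γ` in `M` (near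
the parameter `0`) the function `⟪u, γ t⟫` is constant near `0`, its derivative `⟪u, γ'(0)⟫` is `0`. So `u` is orthogonal to the span
`tan M y` (`Submodule.mem_orthogonal`, `Submodule.span_induction`).
-/

set_option autoImplicit false

open scoped Topology ContDiff RealInnerProductSpace
open Filter Set

namespace TotFoc

variable {E : Type*} [NormedAddCommGroup E] [InnerProductSpace ℝ E] [FiniteDimensional ℝ E]
  {r : ℕ∞ω} {M : Set E}

theorem EZ_orth (hr : ∞ ≤ r) (h : IsSub r M) (h1 : TF1 r M) (hth : TH M) {p u : E}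
    (hp : p ∈ M) (hu : u ∈ (tan M p)ᗮ) (ho : ∀ q, PP M p q → ⟪u, q - p⟫ = 0) {y : E}
    (hy : y ∈ M) : ⟪u, y - p⟫ = 0 := by
  have key : ∀ t : ℝ, 2 * t * ⟪u, y - p⟫ ≤ ‖y - p‖ ^ 2 := by
    intro t
    have hc : Crit M 1 (p + t • u) p := by
      refine ⟨hp, ?_⟩
      have e : (1 : ℝ) • p - (p + t • u) = -(t • u) := by rw [one_smul]; abel
      rw [e]
      exact Submodule.neg_mem _ (Submodule.smul_mem _ _ hu)
    obtain ⟨x, hx, hm⟩ := nearest_mem hr h h1 hth hc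
    have h2 := hm y hy
    have h3 : ‖x - (p + t • u)‖ ^ 2 ≤ ‖y - (p + t • u)‖ ^ 2 :=
      pow_le_pow_left₀ (norm_nonneg _) h2 2
    have e1 : ∀ z : E, ‖z - (p + t • u)‖ ^ 2 =
        ‖z - p‖ ^ 2 - 2 * (t * ⟪u, z - p⟫) + t ^ 2 * ‖u‖ ^ 2 := by
      intro z
      have e2 : z - (p + t • u) = (z - p) - t • u := by abel
      rw [e2, norm_sub_sq_real, inner_smul_right, real_inner_comm, norm_smul, mul_pow,
        Real.norm_eq_abs, sq_abs]
    rw [e1, e1, ho x hx] at h3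
    nlinarith [sq_nonneg ‖x - p‖]
  set k : ℝ := ⟪u, y - p⟫ with hk
  by_contra hne
  have h4 := key ((‖y - p‖ ^ 2 + 1) / (2 * k))
  have h5 : 2 * ((‖y - p‖ ^ 2 + 1) / (2 * k)) * k = ‖y - p‖ ^ 2 + 1 := by
    field_simp
  rw [h5] at h4
  linarith

theorem const_normal (hr : ∞ ≤ r) (h : IsSub r M) (h1 : TF1 r M) (hth : TH M) {p u : E}
    (hp : p ∈ M) (hu : u ∈ (tan M p)ᗮ) (ho : ∀ q, PP M p q → ⟪u, q - p⟫ = 0) :
    ∀ y ∈ M, u ∈ (tan M y)ᗮ := by
  intro y _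
  rw [Submodule.mem_orthogonal]
  intro v hv
  unfold tan at hv
  induction hv using Submodule.span_induction with
  | mem v hv =>
    obtain ⟨γ, _, hd, hm⟩ := hv
    have h2 : HasDerivAt (fun t => ⟪u, γ t⟫) ⟪u, v⟫ 0 := by
      have := (innerSL ℝ u).hasFDerivAt.comp_hasDerivAt (0 : ℝ) hd
      exact this
    have h3 : HasDerivAt (fun t => ⟪u, γ t⟫) 0 0 := by
      have h4 : (fun t => ⟪u, γ t⟫) =ᶠ[𝓝 (0 : ℝ)] fun _ => ⟪u, p⟫ := by
        filter_upwards [hm] with t ht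
        have := EZ_orth hr h h1 hth hp hu ho ht
        rw [inner_sub_right] at this
        linarith
      exact (hasDerivAt_const (0 : ℝ) ⟪u, p⟫).congr_of_eventuallyEq h4
    rw [real_inner_comm]
    exact h2.unique h3
  | zero => exact inner_zero_left _
  | add x z _ _ hx hz => rw [inner_add_left, hx, hz, add_zero]
  | smul k x _ hx => rw [inner_smul_left, hx, mul_zero]

end TotFoc
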