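import Pool.Agent.H49.TF.End.EQ
import Pool.Agent.H49.TF.End.EZ

/-!
# EP: the normal bundle is flat

`IsParallel.add`, `.smul`, `.const`, `.mono`, `.sum`: from the definition (`HasFDerivWithinAt.add` ..; a constant has derivative `0`).
`flat`: let `U`, `q` be as in `local_fields` and `w j = q j p - p` (normal at `p`, as `IsParallel` says). Let `W` be the span of the `w j`, `v = w + u`
with `w ∈ W`, `u ∈ Wᗮ` (orthogonal projection; `Submodule.exists_add_mem_mem_orthogonal`). `W ≤ (tan M p)ᗮ`, so `u = v - w ∈ (tan M p)ᗮ`. For `q'` with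
`PP M p q'` one has `q' = q j p`, so `⟪u, q' - p⟫ = 0`: by `const_normal` `u` is normal at all points of `M`. `w = ∑ j, c j • w j`
(`Submodule.mem_span_range_iff_exists_fun`). Put `ξ s = ∑ j, c j • (q j s - s) + u`.
-/

set_option autoImplicit false

open scoped Topology ContDiff RealInnerProductSpace
open Filter Set

namespace TotFoc

variable {E : Type*} [NormedAddCommGroup E] [InnerProductSpace ℝ E] [FiniteDimensional ℝ E]
  {r : ℕ∞ω} {M : Set E}

theorem IsParallel.add {W : Set E} {ξ η : E → E} (h : IsParallel M W ξ) (h' : IsParallel M W η) :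
    IsParallel M W (fun s => ξ s + η s) := by
  intro x hx
  obtain ⟨a1, L, a2, a3⟩ := h x hx
  obtain ⟨b1, L', b2, b3⟩ := h' x hx
  exact ⟨Submodule.add_mem _ a1 b1, L + L', a2.add b2, fun Z hZ =>
    Submodule.add_mem _ (a3 Z hZ) (b3 Z hZ)⟩

theorem IsParallel.smul {W : Set E} {ξ : E → E} (h : IsParallel M W ξ) (k : ℝ) :
    IsParallel M W (fun s => k • ξ s) := by
  intro x hx
  obtain ⟨a1, L, a2, a3⟩ := h x hx
  exact ⟨Submodule.smul_mem _ k a1, k • L, a2.const_smul k, fun Z hZ =>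
    Submodule.smul_mem _ k (a3 Z hZ)⟩

theorem IsParallel.mono {W W' : Set E} {ξ : E → E} (h : IsParallel M W ξ) (hs : W' ⊆ W) :
    IsParallel M W' ξ := fun x hx => h x (hs hx)

theorem IsParallel.sum {W : Set E} {N : ℕ} {ξ : Fin N → E → E} (h : ∀ j, IsParallel M W (ξ j)) :
    IsParallel M W (fun s => ∑ j, ξ j s) := by
  intro x hx
  choose L hL1 hL2 using fun j => (h j x hx).2
  refine ⟨Submodule.sum_mem _ fun j _ => (h j x hx).1, ∑ j, L j,
    HasFDerivWithinAt.fun_sum fun j _ => hL1 j, fun Z hZ => ?_⟩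
  rw [ContinuousLinearMap.sum_apply]
  exact Submodule.sum_mem _ fun j _ => hL2 j Z hZ

theorem EP_const {W : Set E} {u : E} (h : ∀ y ∈ M, u ∈ (tan M y)ᗮ) (hW : W ⊆ M) :
    IsParallel M W (fun _ => u) := fun x hx =>
  ⟨h x (hW hx), 0, hasFDerivWithinAt_const u x M, fun Z _ => Submodule.zero_mem _⟩

theorem flat (hr : ∞ ≤ r) (h : IsSub r M) (h1 : TF1 r M) (hth : TH M) {p v : E} (hp : p ∈ M)
    (hv : v ∈ (tan M p)ᗮ) : ∃ (U : Set E) (ξ : E → E), IsOpen U ∧ p ∈ U ∧ ξ p = v ∧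
      IsParallel M (M ∩ U) ξ := by
  obtain ⟨U, N, q, hU, hpU, hq1, -, hq3⟩ := local_fields hr h h1 hth hp
  have hpMU : p ∈ M ∩ U := ⟨hp, hpU⟩
  set W : Submodule ℝ E := Submodule.span ℝ (Set.range fun j => q j p - p) with hW
  obtain ⟨w, hw, u, hu, hvu⟩ := W.exists_add_mem_mem_orthogonal v
  have hWn : W ≤ (tan M p)ᗮ := by
    rw [hW, Submodule.span_le]
    rintro _ ⟨j, rfl⟩
    exact (hq3 j p hpMU).1
  have hun : u ∈ (tan M p)ᗮ := by
    have e : u = v - w := by
      rw [hvu]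
      abel
    rw [e]
    exact Submodule.sub_mem _ hv (hWn hw)
  have hc := const_normal hr h h1 hth hp hun (by
    intro q' hq'
    obtain ⟨j, rfl⟩ := (hq1 p hpMU q').1 hq'
    have hm : q j p - p ∈ W := Submodule.subset_span ⟨j, rfl⟩
    exact Submodule.inner_left_of_mem_orthogonal hm hu)
  obtain ⟨c, hcw⟩ := (Submodule.mem_span_range_iff_exists_fun ℝ).1 hw
  refine ⟨U, fun s => (∑ j, c j • (q j s - s)) + u, hU, hpU, ?_, ?_⟩
  · change (∑ j, c j • (q j p - p)) + u = v
    rw [hcw, hvu]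
  · exact (IsParallel.sum fun j => (hq3 j).smul (c j)).add (EP_const hc fun x hx => hx.1)

end TotFoc
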