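import Pool.Agent.H49.TF.Base

/-!
# EX: a generic vector

The sets `{v ∈ V | ⟪w i, v⟫ = 0}` are proper subspaces of `V` (`w i` is not in the `i`-th one); a vector space over an infinite field is not a
finite union of proper subspaces (`Subspace.top_mem_of_biUnion_eq_univ`, `Subspace.exists_eq_top_of_iUnion_eq_univ`), or induction on the number of vectors:
if `v` works for all `i` in a finite set, then `v + t • w j` works for them and `j`, for all but finitely many `t`.
-/

set_option autoImplicit false

open scoped Topology ContDiff RealInnerProductSpace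
open Filter Set

namespace TotFoc

variable {E : Type*} [NormedAddCommGroup E] [InnerProductSpace ℝ E] [FiniteDimensional ℝ E]
  {r : ℕ∞ω} {M : Set E}

theorem exists_generic {V : Submodule ℝ E} {ι : Type*} [Finite ι] (w : ι → E)
    (hw : ∀ i, w i ∈ V) (h0 : ∀ i, w i ≠ 0) : ∃ v ∈ V, ∀ i, ⟪w i, v⟫ ≠ 0 := by
  by_contra hcon
  push Not at hcon
  let p : ι → Submodule ℝ V := fun i =>
    LinearMap.ker ((innerSL ℝ (w i)).toLinearMap.comp V.subtype)
  have hU : ⋃ i, (p i : Set V) = Set.univ := by
    rw [Set.eq_univ_iff_forall]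
    intro v
    obtain ⟨i, hi⟩ := hcon v.1 v.2
    exact Set.mem_iUnion.2 ⟨i, hi⟩
  obtain ⟨i, hi⟩ := Subspace.exists_eq_top_of_iUnion_eq_univ hU
  have h1 : (⟨w i, hw i⟩ : V) ∈ p i := by
    rw [hi]
    exact Submodule.mem_top
  have h2 : ⟪w i, w i⟫ = 0 := h1
  exact h0 i (inner_self_eq_zero.1 h2)

end TotFoc
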