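import Pool.Agent.H49.TF.End.EE
import Pool.Agent.H49.TF.End.EP
import Pool.Agent.H49.TF.End.EI
import Pool.Agent.H49.TF.End.EH
import Pool.Agent.H49.TF.End.EK
import Pool.Agent.H49.TF.End.EX

/-!
# EG: the characteristic polynomial is locally constant for a parallel field

Take a chart `(T, g)` at `p`, `S` from `shape_near`, `U'`, `q` from `local_fields`, `w j s = q j s - s` (parallel). The vectors `w j p - w l p = q j p - q l p`,
`j ≠ l`, are nonzero and normal at `p`: by `exists_generic` there is a normal vector `v₀` at `p` with `⟪w j p - w l p, v₀⟫ ≠ 0` for all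
`j ≠ l`; let `ω` be a parallel field near `p` with `ω p = v₀` (`flat`). By `loc_conn` there is an open `O ∋ p` with `M ∩ O` preconnected, contained in all the
neighbourhoods in question: `U`, `U'`, the domain of `ω`, the sets where `shape_near` holds, and where (`inner_const`) the functions
`⟪w j, w l⟫`, `⟪w j, ξ⟫`, `⟪w j, ω⟫` on `M` are equal to their values at `p`.
For real `t` let `ξ_t = ξ + t • ω` and `b j l t = 2 * (⟪w j p - w l p, ξ p⟫ + t * ⟪w j p - w l p, ω p⟫)`, `a j l = ‖w j p‖ ^ 2 - ‖w l p‖ ^ 2`. For all `t` outside a finite set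
`b j l t ≠ 0` for all `j ≠ l`; so this holds for `t ∈ 𝓝[≠] 0`. Fix such a `t`. For `s ∈ M ∩ O` and a chart `(T', g')` at `s`: every nonzero eigenvalue `λ` of the symmetric
operator `shape T' g' (ξ_t s)` satisfies `λ * a j l = b j l t` for some `j ≠ l` (`eigen_eq`: `x = q j s`, `y = q l s` by `local_fields`,
`x - s = w j s`, the inner products are those at `p`), so `a j l ≠ 0` and `λ ∈ Λ = {0} ∪ {b j l t / a j l}`, a finite set. By
`LinearMap.IsSymmetric.charpoly_eq` its characteristic polynomial is `∏ i, (X - C (f i))` with `f i ∈ Λ`, `i : Fin n`, `n = finrank T' = finrank T`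
(`Chart.near_finrank`, `Chart.tan_eq`; or from the degrees of the characteristic polynomials, `LinearMap.charpoly_natDegree`). By `charpoly_const` on `K = M ∩ O` with
`s ↦ S s (ξ_t s)` (continuous on `K`: `ξ`, `ω` are differentiable, hence continuous, within `M`) the characteristic polynomial of `S s (ξ_t s)` is that of `S p (ξ_t p)`. Let `t → 0`
(`charpoly_lim` with `A t = S p (ξ_t p)`, `B t = S s (ξ_t s)`): `S p (ξ p)` and `S s (ξ s)` have the same characteristic polynomial. `shape_near` again.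
-/

set_option autoImplicit false

open scoped Topology ContDiff RealInnerProductSpace
open Filter Set

namespace TotFoc

variable {E : Type*} [NormedAddCommGroup E] [InnerProductSpace ℝ E] [FiniteDimensional ℝ E]
  {r : ℕ∞ω} {M : Set E}

theorem EG_near_lin (c : ℝ) {d : ℝ} (hd : d ≠ 0) : ∀ᶠ t in 𝓝[≠] (0 : ℝ), c + t * d ≠ 0 := by
  by_cases hc : c = 0
  · subst hc
    filter_upwards [self_mem_nhdsWithin] with t ht
    rw [zero_add]
    exact mul_ne_zero ht hd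
  · have h1 : ContinuousAt (fun t : ℝ => c + t * d) 0 := by fun_prop
    have h2 : ∀ᶠ t in 𝓝 (0 : ℝ), c + t * d ≠ 0 := h1.eventually_ne (by simpa using hc)
    exact h2.filter_mono nhdsWithin_le_nhds

theorem EG_roots {T : Submodule ℝ E} {A : T →ₗ[ℝ] T} (hA : A.IsSymmetric) {Λ : Set ℝ}
    (h : ∀ l, Module.End.HasEigenvalue A l → l ∈ Λ) {n : ℕ} (hn : Module.finrank ℝ T = n) :
    ∃ f : Fin n → ℝ, (∀ i, f i ∈ Λ) ∧
      A.charpoly = ∏ i, (Polynomial.X - Polynomial.C (f i)) := by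
  refine ⟨fun i => hA.eigenvalues hn i, fun i => ?_, ?_⟩
  · exact h _ (hA.hasEigenvalue_eigenvalues hn i)
  · exact hA.charpoly_eq hn

theorem EG_step (hr : ∞ ≤ r) (h : IsSub r M) (h1 : TF1 r M) (hth : TH M) {N : ℕ}
    {q : Fin N → E → E} {K : Set E} (hK : IsPreconnected K) (hKM : K ⊆ M)
    (hq : ∀ s ∈ K, ∀ x, PP M s x ↔ ∃ j, x = q j s) {ζ : E → E}
    (hζ : ∀ s ∈ K, ζ s ∈ (tan M s)ᗮ) (hζc : ContinuousOn ζ K) {T₀ : Submodule ℝ E}
    {S : E → E → (T₀ →L[ℝ] T₀)}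
    (hS : ∀ s ∈ K, ∀ v, ContinuousAt (fun x : E × E => S x.1 x.2) (s, v))
    (hSc : ∀ s ∈ K, ∀ (T' : Submodule ℝ E) (g' : T' → E), Chart r M s T' g' →
      ∀ v ∈ T'ᗮ, (shape T' g' v).charpoly = (S s v : T₀ →ₗ[ℝ] T₀).charpoly)
    {a b : Fin N → ℝ} (ha : ∀ s ∈ K, ∀ j, ‖q j s - s‖ ^ 2 = a j)
    (hb : ∀ s ∈ K, ∀ j, ⟪q j s - s, ζ s⟫ = b j) (hab : ∀ j l, j ≠ l → b j ≠ b l) {s s' : E}
    (hs : s ∈ K) (hs' : s' ∈ K) :
    (S s (ζ s) : T₀ →ₗ[ℝ] T₀).charpoly = (S s' (ζ s') : T₀ →ₗ[ℝ] T₀).charpoly := by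
  have h2 : (2 : ℕ∞ω) ≤ r := le_trans (by norm_num) (EH_three hr)
  have h1r : (1 : ℕ∞ω) ≤ r := le_trans (by norm_num) (EH_three hr)
  set Λ : Set ℝ := {0} ∪ Set.range fun x : Fin N × Fin N =>
    2 * (b x.1 - b x.2) / (a x.1 - a x.2) with hΛ
  have hfin : Λ.Finite := (Set.finite_singleton 0).union (Set.finite_range _)
  refine charpoly_const (S := fun y => S y (ζ y)) hK ?_ hfin (n := Module.finrank ℝ T₀) ?_ hs hs'
  · intro y hy
    have hc : ContinuousWithinAt (fun y : E => (y, ζ y)) K y :=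
      continuousWithinAt_id.prodMk (hζc y hy)
    exact ContinuousAt.comp_continuousWithinAt (f := fun y : E => (y, ζ y))
      (g := fun x : E × E => S x.1 x.2) (hS y hy (ζ y)) hc
  · intro y hy
    obtain ⟨T', g', hc', -⟩ := h.2 y (hKM hy)
    have hn : ζ y ∈ T'ᗮ := by
      have := hζ y hy
      rwa [hc'.tan_eq h1r] at this
    have hch := hSc y hy T' g' hc' (ζ y) hn
    have hrk : Module.finrank ℝ T' = Module.finrank ℝ T₀ := by
      rw [← LinearMap.charpoly_natDegree (shape T' g' (ζ y)), hch, LinearMap.charpoly_natDegree]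
    obtain ⟨f, hf1, hf2⟩ := EG_roots (hc'.shape_symm h2 (ζ y)) (Λ := Λ) (by
      intro l hl
      by_cases h0 : l = 0
      · left
        exact h0
      · right
        obtain ⟨x, x', hx, hx', hne, he⟩ := eigen_eq hr h h1 hth hc' (hζ y hy) h0 hl
        obtain ⟨j, rfl⟩ := (hq y hy x).1 hx
        obtain ⟨k, rfl⟩ := (hq y hy x').1 hx'
        have hjk : j ≠ k := by
          rintro rfl
          exact hne rfl
        have e1 : ⟪q j y - q k y, ζ y⟫ = b j - b k := by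
          rw [← hb y hy j, ← hb y hy k, ← inner_sub_left]
          congr 1
          abel
        rw [ha y hy j, ha y hy k, e1] at he
        have hne2 : b j - b k ≠ 0 := sub_ne_zero.2 (hab j k hjk)
        have hane : a j - a k ≠ 0 := by
          intro h00
          rw [h00, mul_zero] at he
          apply hne2
          linarith
        refine ⟨(j, k), ?_⟩
        change 2 * (b j - b k) / (a j - a k) = l
        rw [div_eq_iff hane, he]) hrk
    exact ⟨f, hf1, by rw [← hch]; exact hf2⟩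

theorem EG_cont {W : Set E} {ξ : E → E} (hξ : IsParallel M W ξ) {K : Set E} (hKM : K ⊆ M)
    (hKW : K ⊆ W) : ContinuousOn ξ K := by
  intro x hx
  obtain ⟨-, L, hL, -⟩ := hξ x (hKW hx)
  exact hL.continuousWithinAt.mono hKM

theorem charpoly_local (hr : ∞ ≤ r) (h : IsSub r M) (h1 : TF1 r M) (hth : TH M) {U : Set E}
    (hU : IsOpen U) {ξ : E → E} (hξ : IsParallel M (M ∩ U) ξ) {p : E} (hp : p ∈ M ∩ U) :
    ∀ᶠ s in 𝓝 p, s ∈ M → ∀ (T : Submodule ℝ E) (g : T → E) (T' : Submodule ℝ E) (g' : T' → E),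
      Chart r M p T g → Chart r M s T' g' →
        (shape T g (ξ p)).charpoly = (shape T' g' (ξ s)).charpoly := by
  have h1r : (1 : ℕ∞ω) ≤ r := le_trans (by norm_num) (EH_three hr)
  obtain ⟨T₀, g₀, hc₀, -⟩ := h.2 p hp.1
  obtain ⟨S, hS1, hS2⟩ := shape_near hr h.2 hc₀
  obtain ⟨U', N, q, hU', hpU', hq1, hq2, hq3⟩ := local_fields hr h h1 hth hp.1
  have hpMU' : p ∈ M ∩ U' := ⟨hp.1, hpU'⟩
  -- a generic vector
  obtain ⟨v₀, hv₀, hgen⟩ := exists_generic (V := (tan M p)ᗮ)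
    (ι := {x : Fin N × Fin N // x.1 ≠ x.2})
    (fun x => (q x.1.1 p - p) - (q x.1.2 p - p))
    (fun x => Submodule.sub_mem _ (hq3 x.1.1 p hpMU').1 (hq3 x.1.2 p hpMU').1)
    (fun x hx => x.2 (hq2 p hpMU' (by
      change q x.1.1 p = q x.1.2 p
      have := sub_eq_zero.1 hx
      exact sub_left_injective this)))
  obtain ⟨Uη, η, hUη, hpη, hηp, hη⟩ := flat hr h h1 hth hp.1 hv₀
  -- everything on the common domain
  set U₁ : Set E := U ∩ (U' ∩ Uη) with hU₁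
  have hU₁o : IsOpen U₁ := hU.inter (hU'.inter hUη)
  have hpU₁ : p ∈ M ∩ U₁ := ⟨hp.1, hp.2, hpU', hpη⟩
  have hξ1 : IsParallel M (M ∩ U₁) ξ := hξ.mono fun x hx => ⟨hx.1, hx.2.1⟩
  have hη1 : IsParallel M (M ∩ U₁) η := hη.mono fun x hx => ⟨hx.1, hx.2.2.2⟩
  have hw1 : ∀ j, IsParallel M (M ∩ U₁) (fun s => q j s - s) := fun j =>
    (hq3 j).mono fun x hx => ⟨hx.1, hx.2.2.1⟩
  have hA : ∀ᶠ s in 𝓝 p, ∀ j, s ∈ M → ⟪q j s - s, q j s - s⟫ = ⟪q j p - p, q j p - p⟫ :=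
    eventually_all.2 fun j => inner_const hr h hU₁o (hw1 j) (hw1 j) hpU₁
  have hB : ∀ᶠ s in 𝓝 p, ∀ j, s ∈ M → ⟪q j s - s, ξ s⟫ = ⟪q j p - p, ξ p⟫ :=
    eventually_all.2 fun j => inner_const hr h hU₁o (hw1 j) hξ1 hpU₁
  have hC : ∀ᶠ s in 𝓝 p, ∀ j, s ∈ M → ⟪q j s - s, η s⟫ = ⟪q j p - p, η p⟫ :=
    eventually_all.2 fun j => inner_const hr h hU₁o (hw1 j) hη1 hpU₁
  have hO : {s | s ∈ U₁ ∧ (∀ j, s ∈ M → ⟪q j s - s, q j s - s⟫ = ⟪q j p - p, q j p - p⟫) ∧
      (∀ j, s ∈ M → ⟪q j s - s, ξ s⟫ = ⟪q j p - p, ξ p⟫) ∧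
      (∀ j, s ∈ M → ⟪q j s - s, η s⟫ = ⟪q j p - p, η p⟫) ∧
      (∀ v, ContinuousAt (fun x : E × E => S x.1 x.2) (s, v)) ∧
      (s ∈ M → ∀ (T' : Submodule ℝ E) (g' : T' → E), Chart r M s T' g' →
        ∀ v ∈ T'ᗮ, (shape T' g' v).charpoly = (S s v : T₀ →ₗ[ℝ] T₀).charpoly)} ∈ 𝓝 p := by
    filter_upwards [hU₁o.mem_nhds hpU₁.2, hA, hB, hC, hS1, hS2] with s a1 a2 a3 a4 a5 a6
      using ⟨a1, a2, a3, a4, a5, a6⟩
  obtain ⟨O, hOs, hOo, hpO, hOc⟩ := hc₀.loc_conn h1r hO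
  have hKU : M ∩ O ⊆ M ∩ U₁ := fun x hx => ⟨hx.1, (hOs hx.2).1⟩
  have hpK : p ∈ M ∩ O := ⟨hp.1, hpO⟩
  filter_upwards [hOo.mem_nhds hpO] with s hsO hsM T g T' g' hcT hcT'
  have hsK : s ∈ M ∩ O := ⟨hsM, hsO⟩
  have hnp : ξ p ∈ Tᗮ := by
    have := (hξ1 p (hKU hpK)).1
    rwa [hcT.tan_eq h1r] at this
  have hns : ξ s ∈ T'ᗮ := by
    have := (hξ1 s (hKU hsK)).1
    rwa [hcT'.tan_eq h1r] at this
  rw [(hOs hpO).2.2.2.2.2 hp.1 T g hcT _ hnp, (hOs hsO).2.2.2.2.2 hsM T' g' hcT' _ hns]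
  -- the generic perturbations
  have key : ∀ᶠ t in 𝓝[≠] (0 : ℝ),
      (S p (ξ p + t • η p) : T₀ →ₗ[ℝ] T₀).charpoly =
        (S s (ξ s + t • η s) : T₀ →ₗ[ℝ] T₀).charpoly := by
    have hg : ∀ᶠ t in 𝓝[≠] (0 : ℝ), ∀ x : {x : Fin N × Fin N // x.1 ≠ x.2},
        ⟪(q x.1.1 p - p) - (q x.1.2 p - p), ξ p⟫ +
          t * ⟪(q x.1.1 p - p) - (q x.1.2 p - p), η p⟫ ≠ 0 :=
      eventually_all.2 fun x => EG_near_lin _ (by rw [hηp]; exact hgen x)
    filter_upwards [hg] with t ht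
    refine EG_step hr h h1 hth (q := q) (K := M ∩ O) hOc (fun x hx => hx.1) ?_
      (ζ := fun s => ξ s + t • η s) ?_ ?_ ?_ ?_ (a := fun j => ‖q j p - p‖ ^ 2)
      (b := fun j => ⟪q j p - p, ξ p⟫ + t * ⟪q j p - p, η p⟫) ?_ ?_ ?_ hpK hsK
    · intro y hy x
      exact hq1 y ⟨hy.1, (hKU hy).2.2.1⟩ x
    · intro y hy
      exact Submodule.add_mem _ (hξ1 y (hKU hy)).1 (Submodule.smul_mem _ _ (hη1 y (hKU hy)).1)
    · exact (EG_cont hξ1 (fun x hx => hx.1) hKU).add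
        ((EG_cont hη1 (fun x hx => hx.1) hKU).const_smul t)
    · intro y hy v
      exact (hOs hy.2).2.2.2.2.1 v
    · intro y hy
      exact (hOs hy.2).2.2.2.2.2 hy.1
    · intro y hy j
      have := (hOs hy.2).2.1 j hy.1
      rwa [real_inner_self_eq_norm_sq, real_inner_self_eq_norm_sq] at this
    · intro y hy j
      change ⟪q j y - y, ξ y + t • η y⟫ = _
      rw [inner_add_right, inner_smul_right, (hOs hy.2).2.2.1 j hy.1,
        (hOs hy.2).2.2.2.1 j hy.1]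
    · intro j l hjl he
      apply ht ⟨(j, l), hjl⟩
      change ⟪(q j p - p) - (q l p - p), ξ p⟫ + t * ⟪(q j p - p) - (q l p - p), η p⟫ = 0
      have he' : ⟪q j p - p, ξ p⟫ + t * ⟪q j p - p, η p⟫ =
          ⟪q l p - p, ξ p⟫ + t * ⟪q l p - p, η p⟫ := he
      rw [inner_sub_left (q j p - p) (q l p - p), inner_sub_left (q j p - p) (q l p - p)]
      linear_combination he'
  have hlim := charpoly_lim (A := fun t => S p (ξ p + t • η p)) (B := fun t => S s (ξ s + t • η s))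
    ?_ ?_ key
  · simpa using hlim
  · have hc1 : ContinuousAt (fun t : ℝ => (p, ξ p + t • η p)) 0 := by fun_prop
    refine ContinuousAt.comp (f := fun t : ℝ => (p, ξ p + t • η p))
      (g := fun x : E × E => S x.1 x.2) ?_ hc1
    exact (hOs hpO).2.2.2.2.1 _
  · have hc1 : ContinuousAt (fun t : ℝ => (s, ξ s + t • η s)) 0 := by fun_prop
    refine ContinuousAt.comp (f := fun t : ℝ => (s, ξ s + t • η s))
      (g := fun x : E × E => S x.1 x.2) ?_ hc1
    exact (hOs hsO).2.2.2.2.1 _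

end TotFoc
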