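import Pool.Agent.H49.TF.End.EG

/-!
# EJ: the end game: `TH` implies isoparametric

First half: `flat`. Second half: `charpoly_local` says that on `M ∩ U` the characteristic polynomial is locally constant (for `x ∈ M ∩ U`; all charts at one point
give the same polynomial: `charpoly_local` at `s = p`, `Filter.Eventually.self_of_nhds`). Relation on `M ∩ U`: `P x y := ∀ T g T' g', Chart r M x T g → Chart r M y T' g' → charpoly = charpoly`;
it is symmetric, transitive on `M ∩ U` (there is a chart at every point), and holds locally: `IsPreconnected.induction₂`.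
-/

set_option autoImplicit false

open scoped Topology ContDiff RealInnerProductSpace
open Filter Set

namespace TotFoc

variable {E : Type*} [NormedAddCommGroup E] [InnerProductSpace ℝ E] [FiniteDimensional ℝ E]
  {r : ℕ∞ω} {M : Set E}

theorem iso (hr : ∞ ≤ r) (h : IsSub r M) (_hc : IsPreconnected M) (h1 : TF1 r M) (hth : TH M) :
    Isoparametric r M := by
  refine ⟨fun p hp v hv => flat hr h h1 hth hp hv, ?_⟩
  intro U ξ hU hpc hξ x hx y hy
  let P : E → E → Prop := fun x y => ∀ (T : Submodule ℝ E) (g : T → E) (T' : Submodule ℝ E)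
    (g' : T' → E), Chart r M x T g → Chart r M y T' g' →
      (shape T g (ξ x)).charpoly = (shape T' g' (ξ y)).charpoly
  have hP : P x y := by
    refine hpc.induction₂ P (fun x hx => ?_) (fun x y z hx hy hz hxy hyz => ?_)
      (fun x y hx hy hxy => ?_) hx hy
    · have h2 := charpoly_local hr h h1 hth hU hξ hx
      rw [eventually_nhdsWithin_iff]
      filter_upwards [h2] with s hs hsM
      exact hs hsM.1
    · intro T g T' g' hc hc'
      obtain ⟨T₁, g₁, hc₁, -⟩ := h.2 y hy.1
      exact (hxy T g T₁ g₁ hc hc₁).trans (hyz T₁ g₁ T' g' hc₁ hc')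
    · intro T g T' g' hc hc'
      exact (hxy T' g' T g hc' hc).symm
  intro T g T' g' hc hc'
  exact hP T g T' g' hc hc'

end TotFoc
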