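import Pool.Agent.H49.TF.End.EA

/-!
# ER: regular points on a normal line

Let `(T, g)` be a chart at `p` (from `h.2`, `p ∈ M`), `v = a - p`, `a_t = p + t • v`. `1 • p - a_t = -(t • v)`, and `1 • p - a = -v` is
orthogonal to `tan M p`, so `Crit M 1 a_t p`. By `hs_shape`: `hs T g 1 (1 • p - a_t) Z Z' = ⟪Z - t • A Z, Z'⟫`, `A = shape T g v`. If `ND` fails
for `a_t` (`Chart.nd_iff`), there is `Z ≠ 0` with `Z = t • A Z` (take `Z' = Z - t • A Z`), so `t ≠ 0` and `A Z = t⁻¹ • Z`: `t⁻¹` is an
eigenvalue of `A`. There are finitely many eigenvalues (`Module.End.finite_hasEigenvalue` or the roots of the characteristic or minimal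
polynomial), so `t` is in a finite set `S`; the complement of `S \ {1}` is a neighbourhood of `1`.
-/

set_option autoImplicit false

open scoped Topology ContDiff RealInnerProductSpace
open Filter Set

namespace TotFoc

variable {E : Type*} [NormedAddCommGroup E] [InnerProductSpace ℝ E] [FiniteDimensional ℝ E]
  {r : ℕ∞ω} {M : Set E}

theorem nd_eventually (hr : ∞ ≤ r) (h : IsSub r M) {a p : E} (hp : Crit M 1 a p) :
    ∀ᶠ t in 𝓝[≠] (1 : ℝ), Crit M 1 (p + t • (a - p)) p ∧ ND r M 1 (p + t • (a - p)) p := by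
  obtain ⟨T, g, hC, -⟩ := h.2 p hp.1
  have hr1 : 1 ≤ r := le_trans (by exact_mod_cast le_top) hr
  have hfin : {t : ℝ | Module.End.HasEigenvalue (shape T g (a - p)) t⁻¹}.Finite := by
    have h1 : {t : ℝ | Module.End.HasEigenvalue (shape T g (a - p)) t}.Finite :=
      Module.End.finite_hasEigenvalue (shape T g (a - p))
    exact h1.preimage (inv_injective.injOn)
  have hev : ∀ᶠ t in 𝓝[≠] (1 : ℝ),
      t ∉ {t : ℝ | Module.End.HasEigenvalue (shape T g (a - p)) t⁻¹} :=
    nhdsNE_le_cofinite _ hfin.compl_mem_cofinite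
  filter_upwards [hev] with t ht
  have hvec : (1 : ℝ) • p - (p + t • (a - p)) = -(t • (a - p)) := by
    rw [one_smul]; abel
  have hvec2 : (1 : ℝ) • p - (p + t • (a - p)) = t • ((1 : ℝ) • p - a) := by
    rw [hvec, one_smul, ← smul_neg, neg_sub]
  refine ⟨⟨hp.1, ?_⟩, ?_⟩
  · rw [hvec2]
    exact Submodule.smul_mem _ _ hp.2
  · rw [hC.nd_iff hr1]
    intro Z hZ
    by_contra hZ0
    apply ht
    rw [hvec] at hZ
    have h2 := hZ (Z - t • shape T g (a - p) Z)
    rw [hs_shape] at h2
    have h3 : (Z - t • shape T g (a - p) Z : T) = 0 := by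
      have := inner_self_eq_zero (𝕜 := ℝ).1 h2
      exact Subtype.ext this
    have h4 : Z = t • shape T g (a - p) Z := sub_eq_zero.1 h3
    have ht0 : t ≠ 0 := by
      rintro rfl
      rw [zero_smul] at h4
      exact hZ0 h4
    refine Module.End.hasEigenvalue_of_hasEigenvector (x := Z) ⟨?_, hZ0⟩
    rw [Module.End.mem_eigenspace_iff]
    rw [eq_inv_smul_iff₀ ht0]
    exact h4.symm

end TotFoc
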