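import Pool.Agent.H49.TF.End.EC
import Pool.Agent.H49.TF.End.ER

/-!
# EN: for every `a` in the normal space at `p` there is a nearest point in the finite set `F = CrS M 1 p`

`F` is finite: `crit_finite` for `a := p`, all critical points of `fn 1 p` are nondegenerate by `nd_of_PP`.
For `t ≠ 1` near `1` let `a_t = p + t • (a - p)`: by `nd_eventually` and `TF1` all critical points of `fn 1 a_t` are
nondegenerate. Let `x_t` be a nearest point of the compact set `M` (`p ∈ M`) to `a_t` (`IsCompact.exists_isMinOn`). By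
`near_crit` `PP M x_t p`, so `PP M p x_t` by `TH`, i.e. `x_t ∈ F`. Hence `a_t` is in the set
`A = ⋃ x ∈ F, {b | ∀ y ∈ M, ‖x - b‖ ≤ ‖y - b‖}`, which is closed (`Set.Finite.isClosed_biUnion`, `isClosed_iInter`/`isClosed_le`). As
`a_t → a` for `t → 1`, `t ≠ 1` (`𝓝[≠] 1` is `NeBot`), `a ∈ A` (`IsClosed.mem_of_tendsto`).
-/

set_option autoImplicit false

open scoped Topology ContDiff RealInnerProductSpace
open Filter Set

namespace TotFoc

variable {E : Type*} [NormedAddCommGroup E] [InnerProductSpace ℝ E] [FiniteDimensional ℝ E]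
  {r : ℕ∞ω} {M : Set E}

theorem nearest_mem (hr : ∞ ≤ r) (h : IsSub r M) (h1 : TF1 r M) (hth : TH M) {a p : E}
    (hp : Crit M 1 a p) : ∃ x, PP M p x ∧ ∀ y ∈ M, ‖x - a‖ ≤ ‖y - a‖ := by
  have hfin : (CrS M 1 p).Finite := crit_finite hr h (fun q hq => nd_of_PP h1 ⟨hp.1, hq⟩)
  set A : Set E := ⋃ x ∈ CrS M 1 p, {b | ∀ y ∈ M, ‖x - b‖ ≤ ‖y - b‖} with hA
  have hcl : IsClosed A := by
    refine hfin.isClosed_biUnion (fun x _ => ?_)
    have e : {b : E | ∀ y ∈ M, ‖x - b‖ ≤ ‖y - b‖} = ⋂ y ∈ M, {b : E | ‖x - b‖ ≤ ‖y - b‖} := by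
      ext b
      simp
    rw [e]
    refine isClosed_biInter (fun y _ => ?_)
    exact isClosed_le (by fun_prop) (by fun_prop)
  have hmem : ∀ᶠ t in 𝓝[≠] (1 : ℝ), p + t • (a - p) ∈ A := by
    filter_upwards [nd_eventually hr h hp] with t ht
    obtain ⟨t1, t2⟩ := ht
    have hall : ∀ q, Crit M 1 (p + t • (a - p)) q → ND r M 1 (p + t • (a - p)) q :=
      fun q hq => h1 _ p q t1 hq t2
    obtain ⟨x, hx, hmin⟩ := h.1.exists_isMinOn ⟨p, hp.1⟩
      (f := fun x => ‖x - (p + t • (a - p))‖) (by fun_prop)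
    have hmin' : ∀ y ∈ M, ‖x - (p + t • (a - p))‖ ≤ ‖y - (p + t • (a - p))‖ := fun y hy => hmin hy
    have hPP := near_crit hr h h1 hth hall hx hmin' t1
    have hPP' := (hth _ _ hPP).1
    rw [hA]
    simp only [Set.mem_iUnion]
    exact ⟨x, hPP'.2, hmin'⟩
  have ht : Tendsto (fun t : ℝ => p + t • (a - p)) (𝓝[≠] 1) (𝓝 a) := by
    have h3 : Tendsto (fun t : ℝ => p + t • (a - p)) (𝓝 1) (𝓝 (p + (1 : ℝ) • (a - p))) :=
      (Continuous.tendsto (by fun_prop) 1)
    rw [one_smul, add_sub_cancel] at h3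
    exact h3.mono_left nhdsWithin_le_nhds
  have haA : a ∈ A := hcl.mem_of_tendsto ht hmem
  rw [hA] at haA
  simp only [Set.mem_iUnion] at haA
  obtain ⟨x, hx, hx2⟩ := haA
  exact ⟨x, ⟨hp.1, hx⟩, hx2⟩

end TotFoc
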