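import Pool.Agent.H49.TF.End.EF

/-!
# EQ: the local parallel normal fields `s ↦ q_j(s) - s`

`F = CrS M 1 p` is finite (`crit_finite`, `nd_of_PP`, `p ∈ M`): enumerate it by `Fin N` (`Finite.equivFin` / `Finset.equivFin`). Let `κ`
be the functions of `crit_local` at `a := p`, and for `x ∈ F` let `κ' x` be the function of `kappa_PP` for the pair `(p, x)`. For `s ∈ M` near `p`:
`κ x s = κ' x s`, because `(s, κ x s) → (p, x)` and `PP M s (κ x s)` (`κ x s ∈ CrS M 1 s` by `crit_local`), so the last property of `kappa_PP`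
applies. Put `q j = κ' (x_j)`, `x_j` the `j`-th point of `F`. For `s ∈ M` in a small open `U ∋ p`:
* `PP M s y ↔ y ∈ CrS M 1 s ↔ ∃ j, y = q j s`, injectivity in `j`: `crit_local`;
* `q j s - s` is normal: `PP M s (q j s)` says `1 • q j s - s ∈ (tan M (q j s))ᗮ`, and `tan M s = tan M (q j s)` by `TH`;
* the derivative within `M` at `s` is `fderiv (q j) s - id` (`kappa_PP`: differentiable at `s`), and for `Z ∈ tan M s` both
  `fderiv (q j) s Z ∈ tan M (q j s) = tan M s` and `Z` are tangent.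
All eventual properties are turned into one open set `U` with `eventually_nhds_iff`.
-/

set_option autoImplicit false

open scoped Topology ContDiff RealInnerProductSpace
open Filter Set

namespace TotFoc

variable {E : Type*} [NormedAddCommGroup E] [InnerProductSpace ℝ E] [FiniteDimensional ℝ E]
  {r : ℕ∞ω} {M : Set E}

theorem local_fields (hr : ∞ ≤ r) (h : IsSub r M) (h1 : TF1 r M) (hth : TH M) {p : E}
    (hp : p ∈ M) :
    ∃ (U : Set E) (N : ℕ) (q : Fin N → E → E), IsOpen U ∧ p ∈ U ∧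
      (∀ s ∈ M ∩ U, ∀ x, PP M s x ↔ ∃ j, x = q j s) ∧
      (∀ s ∈ M ∩ U, Function.Injective fun j => q j s) ∧
      ∀ j, IsParallel M (M ∩ U) (fun s => q j s - s) := by
  have hn : ∀ x, Crit M 1 p x → ND r M 1 p x := fun x hx => nd_of_PP h1 ⟨hp, hx⟩
  have hF := crit_finite hr h hn
  obtain ⟨κ, hκ1, hκ2⟩ := crit_local hr h hn
  have hex : ∀ x, ∃ κ' : E → E, x ∈ CrS M 1 p → (ContinuousAt κ' p ∧ κ' p = x ∧
      (∀ᶠ s in 𝓝 p, DifferentiableAt ℝ κ' s ∧ (s ∈ M → PP M s (κ' s)) ∧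
        ∀ v, fderiv ℝ κ' s v ∈ tan M (κ' s)) ∧
      ∀ᶠ z : E × E in 𝓝 (p, x), PP M z.1 z.2 → z.2 = κ' z.1) := by
    intro x
    by_cases hx : x ∈ CrS M 1 p
    · obtain ⟨κ', k⟩ := kappa_PP hr h h1 (p := p) (q := x) ⟨hp, hx⟩
      exact ⟨κ', fun _ => k⟩
    · exact ⟨id, fun h' => absurd h' hx⟩
  choose κ' hκ' using hex
  have eB : ∀ᶠ s in 𝓝 p, ∀ x ∈ CrS M 1 p, DifferentiableAt ℝ (κ' x) s ∧
      (s ∈ M → PP M s (κ' x s)) ∧ ∀ v, fderiv ℝ (κ' x) s v ∈ tan M (κ' x s) :=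
    (eventually_all_finite hF).2 fun x hx => (hκ' x hx).2.2.1
  have eC : ∀ᶠ s in 𝓝 p, ∀ x ∈ CrS M 1 p, PP M s (κ x s) → κ x s = κ' x s := by
    refine (eventually_all_finite hF).2 fun x hx => ?_
    have h2 : Tendsto (fun s => (s, κ x s)) (𝓝 p) (𝓝 (p, x)) := by
      have h3 : Tendsto (κ x) (𝓝 p) (𝓝 x) := by
        have := (hκ1 x hx).1.continuousAt.tendsto
        rwa [(hκ1 x hx).2] at this
      exact tendsto_id.prodMk_nhds h3
    exact h2.eventually (hκ' x hx).2.2.2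
  obtain ⟨U, hU1, hU2, hU3⟩ := eventually_nhds_iff.1 (hκ2.and (eB.and eC))
  haveI : Finite (CrS M 1 p) := hF.to_subtype
  set e := (Finite.equivFin (CrS M 1 p)).symm with he
  have heq : ∀ s ∈ M ∩ U, ∀ x ∈ CrS M 1 p, κ x s = κ' x s := by
    rintro s ⟨hsM, hsU⟩ x hx
    obtain ⟨⟨h3, h4⟩, h5, h6⟩ := hU1 s hsU
    refine h6 x hx ⟨hsM, ?_⟩
    have h7 : κ x s ∈ CrS M 1 s := by rw [h3]; exact ⟨x, hx, rfl⟩
    exact h7
  refine ⟨U, Nat.card (CrS M 1 p), fun j => κ' (e j).1, hU2, hU3, ?_, ?_, ?_⟩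
  · rintro s hs x
    obtain ⟨⟨h3, h4⟩, h5, h6⟩ := hU1 s hs.2
    constructor
    · intro hP
      have h7 : x ∈ CrS M 1 s := hP.2
      rw [h3] at h7
      obtain ⟨y, hy, rfl⟩ := h7
      refine ⟨e.symm ⟨y, hy⟩, ?_⟩
      simp only [Equiv.apply_symm_apply]
      exact heq s hs y hy
    · rintro ⟨j, rfl⟩
      exact (h5 (e j).1 (e j).2).2.1 hs.1
  · intro s hs i j hij
    obtain ⟨⟨h3, h4⟩, h5, h6⟩ := hU1 s hs.2
    have h7 : κ (e i).1 s = κ (e j).1 s := by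
      rw [heq s hs _ (e i).2, heq s hs _ (e j).2]
      exact hij
    exact e.injective (Subtype.ext (h4 (e i).2 (e j).2 h7))
  · intro j s hs
    obtain ⟨⟨h3, h4⟩, h5, h6⟩ := hU1 s hs.2
    obtain ⟨h8, h9, h10⟩ := h5 (e j).1 (e j).2
    have hP := h9 hs.1
    have hT := (hth _ _ hP).2
    refine ⟨?_, fderiv ℝ (κ' (e j).1) s - ContinuousLinearMap.id ℝ E, ?_, ?_⟩
    · have h11 := hP.2.2
      rw [one_smul] at h11
      rw [hT]
      exact h11
    · exact (h8.hasFDerivAt.sub (hasFDerivAt_id s)).hasFDerivWithinAt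
    · intro Z hZ
      have h12 := h10 Z
      rw [← hT] at h12
      exact Submodule.sub_mem _ h12 hZ

end TotFoc
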